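import Mathlib

/-! # The multiples of the Thue–Morse number are simply normal in base two -/

set_option autoImplicit false

namespace Pool.Agent.Run7.h776.MS.TM

open Finset Filter Topology

/-- the Thue–Morse sequence -/
def t (n : ℕ) : ℕ := (Nat.digits 2 n).sum % 2

lemma t_lt (n : ℕ) : t n < 2 := Nat.mod_lt _ (by norm_num)

lemma t_even (n : ℕ) : t (2 * n) = t n := by
  unfold t
  rcases Nat.eq_zero_or_pos n with h | h
  · subst h; simp
  · have := Nat.digits_add 2 (by norm_num) 0 n (by norm_num) (Or.inr h.ne')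
    rw [zero_add] at this
    rw [this]
    simp

lemma t_odd (n : ℕ) : t (2 * n + 1) = 1 - t n := by
  unfold t
  have := Nat.digits_add 2 (by norm_num) 1 n (by norm_num) (Or.inl one_ne_zero)
  rw [add_comm] at this
  rw [this]
  simp only [List.sum_cons]
  omega

lemma not_three (n : ℕ) : ¬ (t n = t (n + 1) ∧ t (n + 1) = t (n + 2)) := by
  rintro ⟨h1, h2⟩
  obtain ⟨k, rfl | rfl⟩ := n.even_or_odd'
  · rw [t_even, t_odd] at h1
    have := t_lt k
    omega
  · have e1 : 2 * k + 1 + 1 = 2 * (k + 1) := by ring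
    have e2 : 2 * k + 1 + 2 = 2 * (k + 1) + 1 := by ring
    rw [e1, e2, t_even, t_odd] at h2
    have := t_lt (k + 1)
    omega

lemma window (p : ℕ) : 1 ≤ p → ∃ W : ℕ, ∀ a : ℕ, ∃ n, a ≤ n ∧ n < a + W ∧ t (n + p) ≠ t n := by
  induction p using Nat.strong_induction_on with
  | _ p ih =>
    intro hp
    obtain ⟨q, rfl | rfl⟩ := p.even_or_odd'
    · obtain ⟨W, hW⟩ := ih q (by omega) (by omega)
      refine ⟨2 * W, fun a => ?_⟩
      obtain ⟨k, h1, h2, h3⟩ := hW ((a + 1) / 2)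
      refine ⟨2 * k, by omega, by omega, ?_⟩
      rw [← mul_add, t_even, t_even]
      exact h3
    · refine ⟨5, fun a => ?_⟩
      by_contra hcon
      push Not at hcon
      obtain ⟨k, hk1, hk2⟩ : ∃ k, a ≤ 2 * k ∧ 2 * k ≤ a + 1 := ⟨(a + 1) / 2, by omega, by omega⟩
      have h1 := hcon (2 * k) (by omega) (by omega)
      have h2 := hcon (2 * k + 1) (by omega) (by omega)
      have h3 := hcon (2 * (k + 1)) (by omega) (by omega)
      have h4 := hcon (2 * (k + 1) + 1) (by omega) (by omega)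
      have e1 : 2 * k + (2 * q + 1) = 2 * (k + q) + 1 := by ring
      have e2 : 2 * k + 1 + (2 * q + 1) = 2 * (k + q + 1) := by ring
      have e3 : 2 * (k + 1) + (2 * q + 1) = 2 * (k + q + 1) + 1 := by ring
      have e4 : 2 * (k + 1) + 1 + (2 * q + 1) = 2 * (k + q + 2) := by ring
      rw [e1, t_odd, t_even] at h1
      rw [e2, t_even, t_odd] at h2
      rw [e3, t_odd, t_even] at h3
      rw [e4, t_even, t_odd] at h4
      apply not_three (k + q)
      have l1 := t_lt k
      have l2 := t_lt (k + 1)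
      have l3 := t_lt (k + q)
      have l4 := t_lt (k + q + 1)
      have l5 := t_lt (k + q + 2)
      omega

lemma windows (P : ℕ) : ∃ W : ℕ, ∀ p, 1 ≤ p → p ≤ P → ∀ a : ℕ, ∃ n, a ≤ n ∧ n < a + W ∧
    t (n + p) ≠ t n := by
  induction P with
  | zero => exact ⟨0, fun p h1 h2 => by omega⟩
  | succ P ih =>
    obtain ⟨W, hW⟩ := ih
    obtain ⟨V, hV⟩ := window (P + 1) (by omega)
    refine ⟨W + V, fun p h1 h2 a => ?_⟩
    rcases Nat.lt_or_ge p (P + 1) with h | h
    · obtain ⟨n, a1, a2, a3⟩ := hW p h1 (by omega) a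
      exact ⟨n, a1, by omega, a3⟩
    · obtain rfl : p = P + 1 := by omega
      obtain ⟨n, a1, a2, a3⟩ := hV a
      exact ⟨n, a1, by omega, a3⟩

/-- the shifted Thue–Morse numbers -/
noncomputable def x (n : ℕ) : ℝ := ∑' k : ℕ, (t (n + k) : ℝ) / 2 ^ (k + 1)

lemma geo : HasSum (fun k : ℕ => (1 : ℝ) / 2 ^ (k + 1)) 1 := by
  have h := hasSum_geometric_two.mul_left (1 / 2 : ℝ)
  have e1 : (fun k : ℕ => (1 : ℝ) / 2 ^ (k + 1)) = fun k : ℕ => 1 / 2 * (1 / 2 : ℝ) ^ k := by
    funext k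
    rw [pow_succ, one_div_pow]
    ring
  have e2 : (1 : ℝ) = 1 / 2 * 2 := by norm_num
  rw [e1]
  nth_rewrite 3 [e2]
  exact h

lemma summ (n : ℕ) : Summable fun k : ℕ => (t (n + k) : ℝ) / 2 ^ (k + 1) := by
  refine Summable.of_nonneg_of_le (fun k => by positivity) (fun k => ?_) geo.summable
  apply div_le_div_of_nonneg_right _ (by positivity)
  have := t_lt (n + k)
  exact_mod_cast (by omega : t (n + k) ≤ 1)

lemma x_nonneg (n : ℕ) : 0 ≤ x n := tsum_nonneg fun k => by positivity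

lemma x_le_one (n : ℕ) : x n ≤ 1 := by
  rw [← geo.tsum_eq]
  refine (summ n).tsum_le_tsum (fun k => ?_) geo.summable
  apply div_le_div_of_nonneg_right _ (by positivity)
  have := t_lt (n + k)
  exact_mod_cast (by omega : t (n + k) ≤ 1)

lemma x_rec (n : ℕ) : x n = (t n + x (n + 1)) / 2 := by
  unfold x
  rw [(summ n).tsum_eq_zero_add, add_div, ← tsum_div_const]
  congr 1
  · simp
  · refine tsum_congr fun k => ?_
    have : n + (k + 1) = n + 1 + k := by ring
    rw [this, pow_succ 2 (k + 1)]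
    field_simp

lemma t_cases (n : ℕ) : (t n : ℝ) = 0 ∧ t n = 0 ∨ (t n : ℝ) = 1 ∧ t n = 1 := by
  have := t_lt n
  have h : t n = 0 ∨ t n = 1 := by omega
  rcases h with h | h
  · left; exact ⟨by rw [h]; simp, h⟩
  · right; exact ⟨by rw [h]; simp, h⟩

lemma x_bounds (n : ℕ) : 1 / 8 ≤ x n ∧ x n ≤ 7 / 8 := by
  have r1 := x_rec n
  have r2 := x_rec (n + 1)
  have r3 := x_rec (n + 1 + 1)
  have b1 := x_nonneg (n + 1 + 1 + 1)
  have b2 := x_le_one (n + 1 + 1 + 1)
  have h := not_three n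
  rcases t_cases n with ⟨h1, h1'⟩ | ⟨h1, h1'⟩ <;> rcases t_cases (n + 1) with ⟨h2, h2'⟩ | ⟨h2, h2'⟩ <;>
  rcases t_cases (n + 1 + 1) with ⟨h3, h3'⟩ | ⟨h3, h3'⟩ <;>
  first
  | (exfalso; apply h; constructor
     · rw [h1', h2']
     · rw [h2', show n + 2 = n + 1 + 1 by ring, h3'])
  | (rw [h1] at r1; rw [h2] at r2; rw [h3] at r3; constructor <;> linarith)

lemma digits_agree (i : ℕ) : ∀ a b : ℕ, |x a - x b| * 2 ^ i < 1 / 8 → ∀ k ≤ i, t (a + k) = t (b + k) := by
  have key : ∀ a b : ℕ, |x a - x b| < 1 / 8 → t a = t b := by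
    intro a b h
    rw [abs_lt] at h
    have r1 := x_rec a
    have r2 := x_rec b
    obtain ⟨c1, c2⟩ := x_bounds (a + 1)
    obtain ⟨c3, c4⟩ := x_bounds (b + 1)
    rcases t_cases a with ⟨h1, h1'⟩ | ⟨h1, h1'⟩ <;> rcases t_cases b with ⟨h2, h2'⟩ | ⟨h2, h2'⟩
    · rw [h1', h2']
    · exfalso
      rw [h1] at r1; rw [h2] at r2
      linarith [h.1]
    · exfalso
      rw [h1] at r1; rw [h2] at r2
      linarith [h.2]
    · rw [h1', h2']
  induction i with
  | zero =>
    intro a b h k hk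
    obtain rfl : k = 0 := by omega
    rw [pow_zero, mul_one] at h
    exact key a b h
  | succ i ih =>
    intro a b h k hk
    have h0 : |x a - x b| < 1 / 8 := by
      have h1 : (1 : ℝ) ≤ 2 ^ (i + 1) := one_le_pow₀ (by norm_num)
      have h2 : 0 ≤ |x a - x b| := abs_nonneg _
      nlinarith
    have hab := key a b h0
    rcases Nat.eq_zero_or_pos k with hk0 | hk0
    · subst hk0
      exact hab
    · have r1 := x_rec a
      have r2 := x_rec b
      have h3 : x (a + 1) - x (b + 1) = 2 * (x a - x b) := by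
        rw [r1, r2, hab]; ring
      have h4 : |x (a + 1) - x (b + 1)| * 2 ^ i < 1 / 8 := by
        rw [h3, abs_mul, abs_two]
        calc 2 * |x a - x b| * 2 ^ i = |x a - x b| * 2 ^ (i + 1) := by rw [pow_succ]; ring
          _ < _ := h
      have h5 := ih (a + 1) (b + 1) h4 (k - 1) (by omega)
      have e1 : a + 1 + (k - 1) = a + k := by omega
      have e2 : b + 1 + (k - 1) = b + k := by omega
      rw [e1, e2] at h5
      exact h5

/-- the orbit keeps away from the rational numbers -/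
theorem away (M : ℕ) (hM : 1 ≤ M) : ∃ δ : ℝ, 0 < δ ∧ ∀ (n : ℕ) (c : ℤ), δ ≤ |M * x n - c| := by
  obtain ⟨W, hW⟩ := windows (M + 1)
  have hMr : (1 : ℝ) ≤ M := by exact_mod_cast hM
  set δ : ℝ := 1 / (16 * 2 ^ W * 2 ^ (M + 2)) with hδ
  have hδ0 : 0 < δ := by positivity
  refine ⟨δ, hδ0, fun n c => ?_⟩
  by_contra hcon
  push Not at hcon
  have h1 : ∀ j : ℕ, ∃ c : ℤ, |M * x (n + j) - c| ≤ 2 ^ j * δ := by
    intro j
    induction j with
    | zero => exact ⟨c, by rw [add_zero, pow_zero, one_mul]; exact hcon.le⟩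
    | succ j ih =>
      obtain ⟨c', hc'⟩ := ih
      refine ⟨2 * c' - M * t (n + j), ?_⟩
      have r1 := x_rec (n + j)
      have e : (M : ℝ) * x (n + (j + 1)) - ((2 * c' - M * t (n + j) : ℤ) : ℝ) =
          2 * (M * x (n + j) - c') := by
        push_cast
        rw [r1, ← add_assoc]
        ring
      rw [e, abs_mul, abs_two, pow_succ]
      linarith
  choose cc hcc using h1
  have h2 : ∀ j ≤ M + 1, (2 : ℝ) ^ j * δ ≤ 1 / 32 := by
    intro j hj
    have h3 : (2 : ℝ) ^ j ≤ 2 ^ (M + 1) := pow_le_pow_right₀ (by norm_num) hj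
    have h4 : (1 : ℝ) ≤ 2 ^ W := one_le_pow₀ (by norm_num)
    have h5 : (0 : ℝ) < 2 ^ (M + 1) := by positivity
    calc (2 : ℝ) ^ j * δ ≤ 2 ^ (M + 1) * δ := mul_le_mul_of_nonneg_right h3 hδ0.le
      _ = 1 / (32 * 2 ^ W) := by
          rw [hδ, pow_succ 2 (M + 1)]
          field_simp
          norm_num
      _ ≤ 1 / 32 := by
          apply div_le_div_of_nonneg_left zero_le_one (by norm_num) (by linarith)
  have hmaps : ∀ j ∈ range (M + 2), cc j ∈ Icc (0 : ℤ) M := by
    intro j hj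
    rw [mem_range] at hj
    have h3 := (hcc j).trans (h2 j (by omega))
    rw [abs_le] at h3
    obtain ⟨c1, c2⟩ := x_bounds (n + j)
    rw [mem_Icc]
    constructor
    · have : (-1 : ℝ) < cc j := by nlinarith [h3.2]
      have : (-1 : ℤ) < cc j := by exact_mod_cast this
      omega
    · have : (cc j : ℝ) < M + 1 := by nlinarith [h3.1]
      have : cc j < (M : ℤ) + 1 := by exact_mod_cast this
      omega
  have hcard : (Icc (0 : ℤ) M).card < (range (M + 2)).card := by
    rw [card_range, Int.card_Icc]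
    omega
  obtain ⟨i, hi, j, hj, hij, hc⟩ := exists_ne_map_eq_of_card_lt_of_maps_to hcard hmaps
  rw [mem_range] at hi hj
  have main : ∀ i j : ℕ, i < j → j < M + 2 → cc i = cc j → False := by
    intro i j hij hj hc
    have a1 := hcc i
    have a2 := hcc j
    rw [hc] at a1
    have a3 : |M * x (n + i) - M * x (n + j)| ≤ 2 ^ (M + 2) * δ := by
      have e1 : (M : ℝ) * x (n + i) - M * x (n + j) =
        (M * x (n + i) - cc j) - (M * x (n + j) - cc j) := by ring
      rw [e1]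
      refine (abs_sub _ _).trans ?_
      have b1 : (2 : ℝ) ^ i ≤ 2 ^ (M + 1) := pow_le_pow_right₀ (by norm_num) (by omega)
      have b2 : (2 : ℝ) ^ j ≤ 2 ^ (M + 1) := pow_le_pow_right₀ (by norm_num) (by omega)
      have b3 : (2 : ℝ) ^ (M + 2) = 2 * 2 ^ (M + 1) := by rw [pow_succ]; ring
      rw [b3]
      nlinarith
    have a4 : |x (n + i) - x (n + j)| * 2 ^ W < 1 / 8 := by
      rw [← mul_sub, abs_mul, abs_of_pos (by linarith : (0 : ℝ) < M)] at a3
      have a5 : |x (n + i) - x (n + j)| ≤ 2 ^ (M + 2) * δ := by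
        have := abs_nonneg (x (n + i) - x (n + j))
        nlinarith
      have a6 : (2 : ℝ) ^ (M + 2) * δ * 2 ^ W = 1 / 16 := by
        rw [hδ]
        field_simp
      have : |x (n + i) - x (n + j)| * 2 ^ W ≤ 2 ^ (M + 2) * δ * 2 ^ W :=
        mul_le_mul_of_nonneg_right a5 (by positivity)
      linarith
    have a7 := digits_agree W (n + i) (n + j) a4
    obtain ⟨m, m1, m2, m3⟩ := hW (j - i) (by omega) (by omega) (n + i)
    have a8 := a7 (m - (n + i)) (by omega)
    have e1 : n + i + (m - (n + i)) = m := by omega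
    have e2 : n + j + (m - (n + i)) = m + (j - i) := by omega
    rw [e1, e2] at a8
    exact m3 a8.symm
  rcases Nat.lt_or_gt_of_ne hij with h | h
  · exact main i j h hj hc
  · exact main j i h hi hc.symm

lemma compl (k : ℕ) : ∀ a i : ℕ, i < 2 ^ k → t (2 ^ k * (2 * a + 1) + i) = 1 - t (2 ^ k * (2 * a) + i) := by
  induction k with
  | zero =>
    intro a i hi
    rw [pow_zero] at hi ⊢
    obtain rfl : i = 0 := by omega
    rw [one_mul, one_mul, add_zero, add_zero, t_odd, t_even]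
  | succ k ih =>
    intro a i hi
    rw [pow_succ] at hi
    obtain ⟨j, rfl | rfl⟩ := i.even_or_odd'
    · have e1 : 2 ^ (k + 1) * (2 * a + 1) + 2 * j = 2 * (2 ^ k * (2 * a + 1) + j) := by ring
      have e2 : 2 ^ (k + 1) * (2 * a) + 2 * j = 2 * (2 ^ k * (2 * a) + j) := by ring
      rw [e1, e2, t_even, t_even, ih a j (by omega)]
    · have e1 : 2 ^ (k + 1) * (2 * a + 1) + (2 * j + 1) = 2 * (2 ^ k * (2 * a + 1) + j) + 1 := by ring
      have e2 : 2 ^ (k + 1) * (2 * a) + (2 * j + 1) = 2 * (2 ^ k * (2 * a) + j) + 1 := by ring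
      rw [e1, e2, t_odd, t_odd, ih a j (by omega)]

lemma near (L : ℕ) : ∀ n n' : ℕ, (∀ l < L, t (n' + l) = 1 - t (n + l)) → |x n + x n' - 1| ≤ 1 / 2 ^ L := by
  induction L with
  | zero =>
    intro n n' _
    rw [pow_zero, div_one, abs_le]
    constructor <;> linarith [x_nonneg n, x_nonneg n', x_le_one n, x_le_one n']
  | succ L ih =>
    intro n n' h
    have h1 := ih (n + 1) (n' + 1) (fun l hl => by
      have := h (l + 1) (by omega)
      rw [show n' + 1 + l = n' + (l + 1) by ring, show n + 1 + l = n + (l + 1) by ring]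
      exact this)
    have h2 := h 0 (by omega)
    rw [add_zero, add_zero] at h2
    have h3 : (t n : ℝ) + t n' = 1 := by
      have h4 : t n + t n' = 1 := by
        have := t_lt n
        omega
      exact_mod_cast h4
    have e : x n + x n' - 1 = (x (n + 1) + x (n' + 1) - 1) / 2 := by
      rw [x_rec n, x_rec n']
      linarith
    rw [e, abs_div, abs_two, pow_succ, ← div_div]
    exact div_le_div_of_nonneg_right h1 (by norm_num)

/-- the square wave -/
noncomputable def sq (y : ℝ) : ℝ := if Int.fract y < 1 / 2 then 1 else -1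

lemma sq_abs (y : ℝ) : |sq y| = 1 := by
  unfold sq
  split_ifs <;> simp

lemma sq_add_int (y : ℝ) (m : ℤ) : sq (y + m) = sq y := by
  unfold sq
  rw [Int.fract_add_intCast]

lemma sq_flip {y y' η δ : ℝ} (c : ℤ) (h1 : |y + y' - c| ≤ η) (h2 : ∀ d : ℤ, δ ≤ |2 * y - d|)
    (h3 : 2 * η < δ) : sq y' + sq y = 0 := by
  set f := Int.fract y with hf
  have f0 : 0 ≤ f := Int.fract_nonneg y
  have f1 : f < 1 := Int.fract_lt_one y
  have hy : y = ⌊y⌋ + f := (Int.floor_add_fract y).symm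
  have g1 : δ ≤ 2 * f := by
    have := h2 (2 * ⌊y⌋)
    have e : 2 * y - ((2 * ⌊y⌋ : ℤ) : ℝ) = 2 * f := by
      push_cast; linarith
    rw [e, abs_of_nonneg (by linarith)] at this
    exact this
  have g2 : δ ≤ 2 - 2 * f := by
    have := h2 (2 * ⌊y⌋ + 2)
    have e : 2 * y - ((2 * ⌊y⌋ + 2 : ℤ) : ℝ) = -(2 - 2 * f) := by
      push_cast; linarith
    rw [e, abs_neg, abs_of_nonneg (by linarith)] at this
    exact this
  have g3 : δ ≤ |2 * f - 1| := by
    have := h2 (2 * ⌊y⌋ + 1)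
    have e : 2 * y - ((2 * ⌊y⌋ + 1 : ℤ) : ℝ) = 2 * f - 1 := by
      push_cast; linarith
    rw [e] at this
    exact this
  rw [abs_le] at h1
  obtain ⟨k1, k2⟩ := h1
  set e := y + y' - c with he
  have hy' : y' = (1 - f + e) + ((c - ⌊y⌋ - 1 : ℤ) : ℝ) := by
    push_cast
    rw [he]
    linarith
  have hfr : Int.fract y' = 1 - f + e := by
    rw [hy', Int.fract_add_intCast, Int.fract_eq_self]
    constructor <;> linarith
  unfold sq
  rw [hfr, ← hf]
  rcases lt_or_ge f (1 / 2) with h | h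
  · rw [if_pos h]
    rw [abs_of_neg (by linarith)] at g3
    rw [if_neg (by push Not; linarith)]
    norm_num
  · rw [if_neg (not_lt.2 h)]
    rw [abs_of_nonneg (by linarith)] at g3
    rw [if_pos (by linarith)]
    norm_num

/-- pairs of complementary blocks -/
lemma block_pair (m : ℕ) (hm : 1 ≤ m) : ∃ L : ℕ, ∀ k a : ℕ,
    |∑ i ∈ range (2 ^ k), (sq (m * x (2 ^ k * (2 * a + 1) + i)) + sq (m * x (2 ^ k * (2 * a) + i)))|
      ≤ 2 * L := by
  obtain ⟨δ, hδ0, hδ⟩ := away (2 * m) (by omega)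
  have hmr : (1 : ℝ) ≤ m := by exact_mod_cast hm
  obtain ⟨L, hL⟩ : ∃ L : ℕ, 2 * (m * (1 / (2 : ℝ) ^ L)) < δ := by
    obtain ⟨L, hL⟩ := exists_pow_lt_of_lt_one (x := δ / (2 * m)) (by positivity)
      (by norm_num : (1 / 2 : ℝ) < 1)
    refine ⟨L, ?_⟩
    rw [one_div_pow, lt_div_iff₀ (by positivity)] at hL
    linarith
  refine ⟨L, fun k a => ?_⟩
  set F : ℕ → ℝ := fun i => sq (m * x (2 ^ k * (2 * a + 1) + i)) + sq (m * x (2 ^ k * (2 * a) + i))
    with hF
  have h1 : ∀ i, i + L ≤ 2 ^ k → F i = 0 := by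
    intro i hi
    have h2 := near L (2 ^ k * (2 * a) + i) (2 ^ k * (2 * a + 1) + i) (fun l hl => by
      rw [add_assoc, add_assoc]
      exact compl k a (i + l) (by omega))
    rw [hF]
    refine sq_flip (η := m * (1 / 2 ^ L)) (δ := δ) (m : ℤ) ?_ ?_ hL
    · have e : (m : ℝ) * x (2 ^ k * (2 * a) + i) + m * x (2 ^ k * (2 * a + 1) + i) - ((m : ℤ) : ℝ) =
        m * (x (2 ^ k * (2 * a) + i) + x (2 ^ k * (2 * a + 1) + i) - 1) := by
        push_cast; ring
      rw [e, abs_mul, abs_of_pos (by linarith : (0 : ℝ) < m)]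
      exact mul_le_mul_of_nonneg_left h2 (by linarith)
    · intro d
      have := hδ (2 ^ k * (2 * a) + i) d
      push_cast at this
      rw [← mul_assoc]
      exact this
  have hF2 : ∀ i, |F i| ≤ 2 := by
    intro i
    rw [hF]
    refine (abs_add_le _ _).trans ?_
    rw [sq_abs, sq_abs]
    norm_num
  calc |∑ i ∈ range (2 ^ k), F i| ≤ ∑ i ∈ range (2 ^ k), |F i| := abs_sum_le_sum_abs _ _
    _ ≤ ∑ i ∈ range (2 ^ k), (if 2 ^ k < i + L then (2 : ℝ) else 0) := by
        refine sum_le_sum fun i _ => ?_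
        split_ifs with h
        · exact hF2 i
        · rw [h1 i (by omega), abs_zero]
    _ = 2 * (((range (2 ^ k)).filter fun i => 2 ^ k < i + L).card : ℝ) := by
        rw [← sum_filter, sum_const, nsmul_eq_mul, mul_comm]
    _ ≤ 2 * L := by
        apply mul_le_mul_of_nonneg_left _ (by norm_num)
        have h3 : ((range (2 ^ k)).filter fun i => 2 ^ k < i + L) ⊆
            Ico (2 ^ k + 1 - L) (2 ^ k) := by
          intro i hi
          rw [mem_filter, mem_range] at hi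
          rw [mem_Ico]
          omega
        have h4 := card_le_card h3
        rw [Nat.card_Ico] at h4
        exact_mod_cast (by omega : _ ≤ L)

/-- the partial sums of the square wave -/
lemma partial_sum (m : ℕ) (hm : 1 ≤ m) : ∃ L : ℕ, ∀ k N : ℕ,
    |∑ n ∈ range N, sq (m * x n)| ≤ 2 * L * (N / 2 ^ (k + 1)) + 2 ^ (k + 1) := by
  obtain ⟨L, hL⟩ := block_pair m hm
  refine ⟨L, fun k N => ?_⟩
  have h1 : ∀ J : ℕ, |∑ n ∈ range (2 ^ (k + 1) * J), sq (m * x n)| ≤ 2 * L * J := by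
    intro J
    induction J with
    | zero => simp
    | succ J ih =>
      have e1 : ∑ n ∈ range (2 ^ (k + 1) * (J + 1)), sq (m * x n) =
          ∑ n ∈ range (2 ^ (k + 1) * J), sq (m * x n) +
          ∑ i ∈ range (2 ^ k), (sq (m * x (2 ^ k * (2 * J + 1) + i)) +
            sq (m * x (2 ^ k * (2 * J) + i))) := by
        rw [mul_add, mul_one, sum_range_add, sum_add_distrib]
        congr 1
        have e2 : 2 ^ (k + 1) = 2 ^ k + 2 ^ k := by ring
        rw [show ∑ i ∈ range (2 ^ (k + 1)), sq (m * x (2 ^ (k + 1) * J + i)) =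
          ∑ i ∈ range (2 ^ k + 2 ^ k), sq (m * x (2 ^ (k + 1) * J + i)) by rw [e2]]
        rw [sum_range_add, add_comm]
        congr 1
        · refine sum_congr rfl fun i _ => ?_
          congr 3
          ring
        · refine sum_congr rfl fun i _ => ?_
          congr 3
          ring
      rw [e1]
      refine (abs_add_le _ _).trans ?_
      have := hL k J
      push_cast
      linarith
  set J := N / 2 ^ (k + 1) with hJ
  set R := N % 2 ^ (k + 1) with hR
  have hN : N = 2 ^ (k + 1) * J + R := (Nat.div_add_mod _ _).symm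
  have hRlt : R < 2 ^ (k + 1) := Nat.mod_lt _ (by positivity)
  have h2 : ∑ n ∈ range N, sq (m * x n) = ∑ n ∈ range (2 ^ (k + 1) * J), sq (m * x n) +
      ∑ i ∈ range R, sq (m * x (2 ^ (k + 1) * J + i)) := by
    conv_lhs => rw [hN]
    rw [sum_range_add]
  rw [h2]
  refine (abs_add_le _ _).trans ?_
  have h3 : |∑ i ∈ range R, sq (m * x (2 ^ (k + 1) * J + i))| ≤ R := by
    refine (abs_sum_le_sum_abs _ _).trans ?_
    simp [sq_abs]
  have h4 : (R : ℝ) ≤ 2 ^ (k + 1) := by exact_mod_cast hRlt.le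
  have h5 : (J : ℝ) ≤ N / 2 ^ (k + 1) := by
    rw [le_div_iff₀ (by positivity)]
    have : J * 2 ^ (k + 1) ≤ N := by rw [hN]; nlinarith
    exact_mod_cast this
  have h6 := h1 J
  have h7 : 2 * (L : ℝ) * J ≤ 2 * L * (N / 2 ^ (k + 1)) :=
    mul_le_mul_of_nonneg_left h5 (by positivity)
  linarith

theorem sq_tendsto (m : ℕ) (hm : 1 ≤ m) :
    Tendsto (fun N : ℕ => (∑ n ∈ range N, sq (m * x n)) / N) atTop (𝓝 0) := by
  obtain ⟨L, hL⟩ := partial_sum m hm
  rw [Metric.tendsto_atTop]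
  intro ε hε
  obtain ⟨k, hk⟩ : ∃ k : ℕ, 2 * (L : ℝ) / 2 ^ (k + 1) < ε / 2 := by
    obtain ⟨k, hk⟩ := exists_pow_lt_of_lt_one (x := ε / (4 * (L + 1))) (by positivity)
      (by norm_num : (1 / 2 : ℝ) < 1)
    refine ⟨k, ?_⟩
    rw [one_div_pow, div_lt_div_iff₀ (by positivity) (by positivity)] at hk
    rw [div_lt_div_iff₀ (by positivity) (by positivity), pow_succ]
    nlinarith [(by positivity : (0 : ℝ) < 2 ^ k)]
  obtain ⟨N₀, hN₀⟩ := exists_nat_gt (2 ^ (k + 1) / (ε / 2) : ℝ)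
  refine ⟨N₀ + 1, fun N hN => ?_⟩
  have hN' : (N₀ : ℝ) + 1 ≤ N := by exact_mod_cast hN
  have hN0 : (0 : ℝ) < N := by
    have : (0 : ℝ) ≤ N₀ := Nat.cast_nonneg _
    linarith
  rw [Real.dist_eq, sub_zero, abs_div, abs_of_pos hN0, div_lt_iff₀ hN0]
  refine lt_of_le_of_lt (hL k N) ?_
  have h1 : (2 : ℝ) ^ (k + 1) < ε / 2 * N := by
    rw [div_lt_iff₀ (by positivity)] at hN₀
    nlinarith
  have h2 : 2 * (L : ℝ) * (N / 2 ^ (k + 1)) = 2 * L / 2 ^ (k + 1) * N := by ring
  rw [h2]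
  nlinarith

/-- the orbit of the Thue–Morse number -/
lemma orbit (n : ℕ) : ∃ c : ℤ, (2 : ℝ) ^ n * x 0 = x n + c := by
  induction n with
  | zero => exact ⟨0, by simp⟩
  | succ n ih =>
    obtain ⟨c, hc⟩ := ih
    refine ⟨2 * c + t n, ?_⟩
    rw [pow_succ, mul_comm ((2 : ℝ) ^ n), mul_assoc, hc, x_rec n]
    push_cast
    ring

end Pool.Agent.Run7.h776.MS.TM
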