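import Pool.Agent.Run7.h776.MS.Crit
import Pool.Agent.Run7.h776.MS.TM

/-! # Normal numbers and their multiples -/

set_option autoImplicit false

namespace Pool.Agent.Run7.h776.MS

open Finset Filter Topology
open Pool.Agent.H534R3.UDist (UD)
open Pool.Agent.N915.WT (visits occ IsNormal ud_of_isNormal isNormal_of_ud occ_tendsto normal_affine
  visits_cnt tendsto_transfer)
open scoped Real

/-- all words of length `l` have the right frequency -/
def WordsUniform (b l : ℕ) (x : ℝ) : Prop := ∀ a < b ^ l,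
  Tendsto (fun N : ℕ => (occ b l a x N : ℝ) / (N : ℝ)) atTop (𝓝 (1 / (b : ℝ) ^ l))

lemma occ_cnt {b : ℕ} (hb : 0 < b) (l a : ℕ) (x : ℝ) (N : ℕ) :
    |(occ b l a x N : ℝ) - (cnt (b ^ l) N (fun n => (b : ℝ) ^ n * x) a : ℝ)| ≤ 1 := by
  have h := visits_cnt b x ((a : ℝ) / (b : ℝ) ^ l) (((a : ℝ) + 1) / (b : ℝ) ^ l) N
  rw [cnt_eq (pow_pos hb l)]
  unfold occ
  push_cast
  exact h

lemma wordsUniform_iff {b : ℕ} (hb : 0 < b) (l : ℕ) (x : ℝ) : WordsUniform b l x ↔
    ∀ d < b ^ l, Tendsto (fun N : ℕ => (cnt (b ^ l) N (fun n => (b : ℝ) ^ n * x) d : ℝ) / N) atTop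
      (𝓝 (1 / ((b ^ l : ℕ) : ℝ))) := by
  unfold WordsUniform
  push_cast
  constructor
  · intro h d hd
    exact tendsto_transfer (fun N => by rw [abs_sub_comm]; exact occ_cnt hb l d x N) (h d hd)
  · intro h d hd
    exact tendsto_transfer (fun N => occ_cnt hb l d x N) (h d hd)

theorem normal_iff {b l : ℕ} (hb : 2 ≤ b) (hbl : 3 ≤ b ^ l) (x : ℝ) :
    IsNormal b x ↔ ∀ m : ℕ, 1 ≤ m → WordsUniform b l (m * x) := by
  constructor
  · intro h m hm a ha
    have h1 := normal_affine hb h (m : ℚ) 0 (by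
      have : m ≠ 0 := by omega
      exact_mod_cast this)
    have h2 : ((m : ℚ) : ℝ) * x + ((0 : ℚ) : ℝ) = m * x := by push_cast; ring
    rw [h2] at h1
    exact occ_tendsto hb ha h1
  · intro h
    apply isNormal_of_ud
    refine ud_of_cnt hbl _ fun m hm d hd => ?_
    have h1 := (wordsUniform_iff (by omega : 0 < b) l (m * x)).1 (h m hm) d hd
    refine h1.congr fun N => ?_
    congr 2
    congr 1
    funext n
    ring

/-- the Thue–Morse number is not normal -/
lemma tm_not_normal : ¬ IsNormal 2 (TM.x 0) := by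
  intro h
  have h1 := h 0 (1 / 8) le_rfl (by norm_num) (by norm_num)
  have h2 : ∀ N : ℕ, visits 2 (TM.x 0) 0 (1 / 8) N = 0 := by
    intro N
    unfold visits
    rw [card_eq_zero, filter_eq_empty_iff]
    intro n _ hn
    obtain ⟨c, hc⟩ := TM.orbit n
    obtain ⟨b1, b2⟩ := TM.x_bounds n
    have e : Int.fract (TM.x 0 * ((2 : ℕ) : ℝ) ^ n) = TM.x n := by
      rw [mul_comm]
      push_cast
      rw [hc, Int.fract_add_intCast, Int.fract_eq_self]
      constructor <;> linarith
    rw [e] at hn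
    linarith [hn.2]
  simp only [h2, Nat.cast_zero, zero_div, sub_zero] at h1
  have h3 := tendsto_nhds_unique h1 tendsto_const_nhds
  norm_num at h3

lemma dig_two (y : ℝ) : (if dig 2 y = 0 then (1 : ℝ) else 0) = (1 + TM.sq y) / 2 ∧
    (if dig 2 y = 1 then (1 : ℝ) else 0) = (1 - TM.sq y) / 2 := by
  have h0 := dig_eq_iff (b := 2) (by norm_num) y 0
  have h1 := dig_eq_iff (b := 2) (by norm_num) y 1
  push_cast at h0 h1
  have f0 : 0 ≤ Int.fract y := Int.fract_nonneg y
  have f1 : Int.fract y < 1 := Int.fract_lt_one y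
  unfold TM.sq
  rcases lt_or_ge (Int.fract y) (1 / 2) with h | h
  · have a0 : dig 2 y = 0 := h0.2 ⟨by linarith, by linarith⟩
    rw [a0, if_pos h]
    norm_num
  · have a1 : dig 2 y = 1 := h1.2 ⟨by linarith, by linarith⟩
    rw [a1, if_neg (not_lt.2 h)]
    norm_num

lemma tm_multiples (m : ℕ) (hm : 1 ≤ m) : WordsUniform 2 1 (m * TM.x 0) := by
  rw [wordsUniform_iff (by norm_num)]
  intro d hd
  have hd' : d = 0 ∨ d = 1 := by
    rw [pow_one] at hd
    omega
  have hsq : ∀ n : ℕ, TM.sq ((2 : ℝ) ^ n * (m * TM.x 0)) = TM.sq (m * TM.x n) := by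
    intro n
    obtain ⟨c, hc⟩ := TM.orbit n
    have e : (2 : ℝ) ^ n * (m * TM.x 0) = m * TM.x n + ((m * c : ℤ) : ℝ) := by
      rw [mul_left_comm, hc]
      push_cast
      ring
    rw [e, TM.sq_add_int]
  have h1 := TM.sq_tendsto m hm
  have key : ∀ s : ℝ, Tendsto (fun N : ℕ => (∑ n ∈ range N, (1 + s * TM.sq (m * TM.x n)) / 2) / N)
      atTop (𝓝 (1 / 2)) := by
    intro s
    have h2 : Tendsto (fun N : ℕ => 1 / 2 + s / 2 * ((∑ n ∈ range N, TM.sq (m * TM.x n)) / N)) atTop
        (𝓝 (1 / 2 + s / 2 * 0)) := (h1.const_mul _).const_add _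
    rw [mul_zero, add_zero] at h2
    refine h2.congr' ?_
    filter_upwards [eventually_gt_atTop 0] with N hN
    have hN' : (N : ℝ) ≠ 0 := by exact_mod_cast hN.ne'
    have e : ∑ n ∈ range N, (1 + s * TM.sq (m * TM.x n)) / 2 =
        N / 2 + s / 2 * ∑ n ∈ range N, TM.sq (m * TM.x n) := by
      rw [← sum_div, sum_add_distrib, ← mul_sum]
      simp only [sum_const, card_range, nsmul_eq_mul, mul_one]
      ring
    rw [e]
    field_simp
  have e2 : (1 : ℝ) / ((2 ^ 1 : ℕ) : ℝ) = 1 / 2 := by norm_num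
  rw [e2]
  rcases hd' with rfl | rfl
  · refine (key 1).congr fun N => ?_
    congr 1
    unfold cnt
    rw [card_filter]
    push_cast
    refine sum_congr rfl fun n _ => ?_
    rw [(dig_two _).1, hsq, one_mul]
  · refine (key (-1)).congr fun N => ?_
    congr 1
    unfold cnt
    rw [card_filter]
    push_cast
    refine sum_congr rfl fun n _ => ?_
    rw [(dig_two _).2, hsq]
    ring

end Pool.Agent.Run7.h776.MS
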