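import Pool.Agent.Run7.h776.MS.Mob

/-! # Uniform approximation by the step functions -/

set_option autoImplicit false

namespace Pool.Agent.Run7.h776.MS

open Finset Filter Topology
open Pool.Agent.H807R2.Dav (ee norm_ee ee_add ee_zero ee_int ee_add_int)
open scoped Real

/-- the Fourier series of the primitive -/
noncomputable def cc (b : ℕ) (g : ℕ → ℂ) (t : ℝ) (n : ℕ) : ℂ :=
  g n * (ee (n * t) + g (b - 1) * ee (-(n * t))) / (n : ℂ) ^ 2

/-- the primitive of the partial sums -/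
noncomputable def hh (b : ℕ) (g : ℕ → ℂ) (J : ℕ) (t : ℝ) : ℂ :=
  ∑ j ∈ Icc 1 J, mu j * g j / (j : ℂ) ^ 2 * WW b g (j * t)

/-- the partial sums -/
noncomputable def DD (b : ℕ) (g : ℕ → ℂ) (J : ℕ) (t : ℝ) : ℂ :=
  ∑ j ∈ Icc 1 J, mu j * g j / j * EE b g (j * t)

section

variable {b : ℕ} {g : ℕ → ℂ}

lemma cc_norm (hg : PG b g) (t : ℝ) (n : ℕ) : ‖cc b g t n‖ ≤ 2 * (1 / (n : ℝ) ^ 2) := by
  unfold cc
  rw [norm_div, norm_mul, norm_pow, Complex.norm_natCast, mul_one_div]
  apply div_le_div_of_nonneg_right _ (by positivity)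
  have h1 : ‖ee (n * t) + g (b - 1) * ee (-(n * t))‖ ≤ 2 := by
    refine (norm_add_le _ _).trans ?_
    rw [norm_mul, norm_ee, norm_ee, mul_one]
    have := hg.norm (b - 1)
    linarith
  calc ‖g n‖ * _ ≤ 1 * 2 := mul_le_mul (hg.norm n) h1 (norm_nonneg _) zero_le_one
    _ = 2 := one_mul _

lemma WW_series (hb : 0 < b) (hg : PG b g) (t : ℝ) :
    HasSum (fun k : ℕ => cc b g t k) (-(4 * π) * WW b g t) := by
  have hb0 : (b : ℂ) ≠ 0 := by exact_mod_cast hb.ne'
  have hbr : (b : ℝ) ≠ 0 := by exact_mod_cast hb.ne'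
  have hpi : (π : ℂ) ≠ 0 := by exact_mod_cast Real.pi_ne_zero
  have h1 : HasSum (fun k : ℕ => ∑ d ∈ range b, TT b g d *
      ((1 / (k : ℝ) ^ 2 * Real.cos (2 * π * (k * (t + d / b))) : ℝ) : ℂ))
      (∑ d ∈ range b, TT b g d * ((2 * π ^ 2 * (1 / 12 - Pr (t + d / b)) : ℝ) : ℂ)) := by
    apply hasSum_sum
    intro d _
    exact (Complex.hasSum_ofReal.2 (Pr_hasSum _)).mul_left _
  have h2 := h1.mul_left (2 / (b : ℂ))
  have hf : (fun k : ℕ => cc b g t k) = fun k : ℕ => 2 / (b : ℂ) * ∑ d ∈ range b, TT b g d *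
      ((1 / (k : ℝ) ^ 2 * Real.cos (2 * π * (k * (t + d / b))) : ℝ) : ℂ) := by
    funext k
    have e1 : ∑ d ∈ range b, TT b g d * ee (-(k * (d / b))) = b * (g (b - 1) * g k) := by
      rw [← hg.mul, ← inv hb hg]
      refine sum_congr rfl fun d _ => ?_
      congr 1
      have : (((b - 1) * k : ℕ) : ℝ) * (d / b) = -(k * (d / b)) + ((k * d : ℕ) : ℤ) := by
        rw [Int.cast_natCast, Nat.cast_mul, Nat.cast_mul, Nat.cast_sub hb]
        push_cast
        field_simp
        ring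
      rw [this, ee_add_int]
    have e2 := inv hb hg k
    have e3 : ∑ d ∈ range b, TT b g d * ((1 / (k : ℝ) ^ 2 * Real.cos (2 * π * (k * (t + d / b))) : ℝ) : ℂ)
        = (1 / (k : ℂ) ^ 2) * ((ee (k * t) / 2) * ∑ d ∈ range b, TT b g d * ee (k * (d / b)) +
          (ee (-(k * t)) / 2) * ∑ d ∈ range b, TT b g d * ee (-(k * (d / b)))) := by
      rw [mul_sum, mul_sum, ← sum_add_distrib, mul_sum]
      refine sum_congr rfl fun d _ => ?_
      rw [Complex.ofReal_mul, cos_ee]
      have a1 : ee (k * (t + d / b)) = ee (k * t) * ee (k * (d / b)) := by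
        rw [← ee_add]; congr 1; ring
      have a2 : ee (-(k * (t + d / b))) = ee (-(k * t)) * ee (-(k * (d / b))) := by
        rw [← ee_add]; congr 1; ring
      rw [a1, a2]
      push_cast
      ring
    rw [e3, e1, e2]
    unfold cc
    rcases Nat.eq_zero_or_pos k with hk | hk
    · subst hk
      simp
    · have hk0 : (k : ℂ) ≠ 0 := by exact_mod_cast hk.ne'
      field_simp
  have hv : -(4 * π) * WW b g t = 2 / (b : ℂ) *
      ∑ d ∈ range b, TT b g d * ((2 * π ^ 2 * (1 / 12 - Pr (t + d / b)) : ℝ) : ℂ) := by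
    have e4 : ∑ d ∈ range b, TT b g d * ((2 * π ^ 2 * (1 / 12 - Pr (t + d / b)) : ℝ) : ℂ) =
        (2 * π ^ 2 / 12) * ∑ d ∈ range b, TT b g d -
          (2 * π ^ 2) * ∑ d ∈ range b, TT b g d * ((Pr (t + d / b) : ℝ) : ℂ) := by
      rw [mul_sum, mul_sum, ← sum_sub_distrib]
      refine sum_congr rfl fun d _ => ?_
      push_cast
      ring
    rw [e4, sum_TT hb hg, mul_zero, zero_sub]
    unfold WW
    push_cast
    field_simp
    ring
  rw [hf, hv]
  exact h2

lemma hh_tendsto (hb : 0 < b) (hg : PG b g) (t : ℝ) :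
    Tendsto (fun J : ℕ => hh b g J t) atTop (𝓝 (-(1 / (4 * π)) * (ee t + g (b - 1) * ee (-t)))) := by
  have hpi : (π : ℂ) ≠ 0 := by exact_mod_cast Real.pi_ne_zero
  have h1 := (mob (cc b g t) 2 (cc_norm hg t)).const_mul (-(1 / (4 * (π : ℂ))))
  have h2 : cc b g t 1 = ee t + g (b - 1) * ee (-t) := by
    unfold cc
    rw [hg.one]
    simp
  rw [h2] at h1
  refine h1.congr fun J => ?_
  unfold hh
  rw [mul_sum]
  refine sum_congr rfl fun j hj => ?_
  rw [mem_Icc] at hj
  have hj0 : (j : ℂ) ≠ 0 := by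
    have : j ≠ 0 := by omega
    exact_mod_cast this
  have h3 : ∑' k : ℕ+, cc b g t (j * k) = ∑' k : ℕ, cc b g t (j * k) := by
    refine PNat.coe_injective.tsum_eq (f := fun k : ℕ => cc b g t (j * k)) ?_
    intro k hk
    rw [Function.mem_support] at hk
    have : k ≠ 0 := by
      rintro rfl
      apply hk
      simp [cc]
    exact ⟨⟨k, Nat.pos_of_ne_zero this⟩, rfl⟩
  have h4 : ∑' k : ℕ, cc b g t (j * k) = g j / (j : ℂ) ^ 2 * (-(4 * π) * WW b g (j * t)) := by
    rw [← (WW_series hb hg (j * t)).tsum_eq, ← tsum_mul_left]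
    refine tsum_congr fun k => ?_
    unfold cc
    rw [hg.mul]
    have e1 : ((j * k : ℕ) : ℝ) * t = k * (j * t) := by push_cast; ring
    rw [e1]
    rcases Nat.eq_zero_or_pos k with hk | hk
    · subst hk
      simp
    · have hk0 : (k : ℂ) ≠ 0 := by exact_mod_cast hk.ne'
      push_cast
      field_simp
  rw [h3, h4]
  field_simp

lemma term_deriv (j : ℕ) (hj : 1 ≤ j) (t : ℝ) :
    HasDerivWithinAt (fun x : ℝ => mu j * g j / (j : ℂ) ^ 2 * WW b g (j * x))
      (mu j * g j / j * EE b g (j * t)) (Set.Ici t) t := by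
  have hj0 : (j : ℂ) ≠ 0 := by
    have : j ≠ 0 := by omega
    exact_mod_cast this
  refine ((WW_deriv b g j t).const_mul _).congr_deriv ?_
  field_simp

lemma hh_deriv (J : ℕ) (t : ℝ) : HasDerivWithinAt (hh b g J) (DD b g J t) (Set.Ici t) t := by
  unfold hh DD
  apply HasDerivWithinAt.fun_sum
  intro j hj
  rw [mem_Icc] at hj
  exact term_deriv j hj.1 t

lemma hh_cont (J : ℕ) : Continuous (hh b g J) := by
  unfold hh
  refine continuous_finsetSum _ fun j _ => continuous_const.mul ?_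
  exact (WW_cont b g).comp (by fun_prop)

lemma DD_sub (J K : ℕ) (hJK : J ≤ K) (t : ℝ) :
    DD b g K t - DD b g J t = ∑ j ∈ Ioc J K, mu j * g j / j * EE b g (j * t) := by
  unfold DD
  induction K, hJK using Nat.le_induction with
  | base => simp
  | succ K hK ih =>
    rw [sum_Ioc_succ_top (by omega), sum_Icc_succ_top (by omega), ← ih]
    ring

lemma ee_deriv (t : ℝ) (s : ℝ) :
    HasDerivAt (fun x : ℝ => ee (s * x)) (2 * π * Complex.I * s * ee (s * t)) t := by
  unfold ee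
  have h1 : HasDerivAt (fun x : ℝ => 2 * (π : ℂ) * Complex.I * ((s * x : ℝ) : ℂ))
      (2 * π * Complex.I * s) t := by
    have h2 : HasDerivAt (fun x : ℝ => ((s * x : ℝ) : ℂ)) ((s : ℝ) : ℂ) t := by
      have := ((hasDerivAt_id t).const_mul s).ofReal_comp
      simpa using this
    exact h2.const_mul _
  have h3 := h1.cexp
  refine h3.congr_deriv ?_
  ring

/-- **Uniform approximation.** -/
theorem approx (hb : 0 < b) (hg : PG b g) (A : ℕ) : ∃ C : ℝ, 0 < C ∧ ∀ J : ℕ, 2 ≤ J → ∀ y : ℝ,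
    ‖(ee y - g (b - 1) * ee (-y)) / (2 * Complex.I) - DD b g J y‖ ≤ C / Real.log J ^ A := by
  obtain ⟨C, hC0, hC⟩ := tail hb hg A
  refine ⟨C, hC0, fun J hJ y => ?_⟩
  set η := C / Real.log J ^ A with hη
  set H : ℝ → ℂ := fun t => -(1 / (4 * π)) * (ee t + g (b - 1) * ee (-t)) with hH
  have hpi : (π : ℂ) ≠ 0 := by exact_mod_cast Real.pi_ne_zero
  -- increments
  have h1 : ∀ K, J ≤ K → ∀ ε : ℝ, 0 ≤ ε →
      ‖(hh b g K (y + ε) - hh b g J (y + ε)) - (hh b g K y - hh b g J y)‖ ≤ η * ε := by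
    intro K hK ε hε
    have h2 := norm_image_sub_le_of_norm_deriv_right_le_segment (a := y) (b := y + ε)
      (f := fun t => hh b g K t - hh b g J t) (f' := fun t => DD b g K t - DD b g J t) (C := η)
      ((hh_cont K).sub (hh_cont J)).continuousOn
      (fun x _ => (hh_deriv K x).sub (hh_deriv J x))
      (fun x _ => by rw [DD_sub J K hK]; exact hC J K hJ hK x) (y + ε) ⟨by linarith, le_rfl⟩
    rw [add_sub_cancel_left] at h2
    exact h2
  have h2 : ∀ ε : ℝ, 0 ≤ ε → ‖(H (y + ε) - hh b g J (y + ε)) - (H y - hh b g J y)‖ ≤ η * ε := by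
    intro ε hε
    have h3 : Tendsto (fun K : ℕ => ‖(hh b g K (y + ε) - hh b g J (y + ε)) -
        (hh b g K y - hh b g J y)‖) atTop
        (𝓝 ‖(H (y + ε) - hh b g J (y + ε)) - (H y - hh b g J y)‖) :=
      (((hh_tendsto hb hg (y + ε)).sub tendsto_const_nhds).sub
        ((hh_tendsto hb hg y).sub tendsto_const_nhds)).norm
    refine le_of_tendsto h3 ?_
    filter_upwards [eventually_ge_atTop J] with K hK
    exact h1 K hK ε hε
  -- the derivative
  have hHd : HasDerivAt H ((ee y - g (b - 1) * ee (-y)) / (2 * Complex.I)) y := by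
    have e1 := ee_deriv y 1
    have e2 := ee_deriv y (-1)
    simp only [one_mul, neg_one_mul] at e1 e2
    have e3 := (e1.add (e2.const_mul (g (b - 1)))).const_mul (-(1 / (4 * (π : ℂ))))
    refine e3.congr_deriv ?_
    push_cast
    have hI : Complex.I ≠ 0 := Complex.I_ne_zero
    field_simp
    ring_nf
    rw [Complex.I_sq]
    ring
  have h4 : HasDerivWithinAt (fun t => H t - hh b g J t)
      ((ee y - g (b - 1) * ee (-y)) / (2 * Complex.I) - DD b g J y) (Set.Ici y) y :=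
    hHd.hasDerivWithinAt.sub (hh_deriv J y)
  have hset : Set.Ici y \ {y} = Set.Ioi y := by
    ext x
    simp only [Set.mem_sdiff, Set.mem_Ici, Set.mem_singleton_iff, Set.mem_Ioi]
    exact ⟨fun h => lt_of_le_of_ne h.1 (Ne.symm h.2), fun h => ⟨h.le, h.ne'⟩⟩
  have h5 := hasDerivWithinAt_iff_tendsto_slope.1 h4
  rw [hset] at h5
  refine le_of_tendsto h5.norm ?_
  filter_upwards [self_mem_nhdsWithin] with x hx
  have hx' : y < x := hx
  rw [slope_def_module, norm_smul, norm_inv, Real.norm_eq_abs, abs_of_pos (sub_pos.2 hx')]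
  rw [inv_mul_le_iff₀ (sub_pos.2 hx')]
  have h7 := h2 (x - y) (sub_nonneg.2 hx'.le)
  rw [add_sub_cancel] at h7
  linarith

end

end Pool.Agent.Run7.h776.MS
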