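import Pool.Agent.Run7.h776.MS.Saw

/-! # Points of an arithmetic progression modulo one in a short arc -/

set_option autoImplicit false

namespace Pool.Agent.Run7.h776.MS

open Finset

open Classical in
lemma block (r : ℚ) (Q : ℕ) (hden : r.den ≤ Q) (y β δ : ℝ) (hδ : 0 ≤ δ)
    (hy : |y - r| ≤ 1 / ((Q + 1) * r.den)) (n₀ : ℕ) :
    (((Ioc n₀ (n₀ + r.den)).filter (fun n : ℕ => 1 - δ ≤ Int.fract (n * y + β))).card : ℝ) ≤
      δ * r.den + 3 := by
  set q : ℕ := r.den with hq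
  have hq0 : (0 : ℝ) < q := by exact_mod_cast r.den_pos
  have hQ0 : (0 : ℝ) < (Q : ℝ) + 1 := by positivity
  set p : ℤ := r.num with hp
  have hr : (r : ℝ) * q = p := by
    have := Rat.mul_den_eq_num r
    exact_mod_cast this
  set θ : ℝ := y - r with hθ
  set c : ℝ := q - q * β - q * (n₀ * θ) with hc
  set K : ℕ → ℤ := fun n => n * p - q * ⌊(n : ℝ) * y + β⌋ with hK
  set S := (Ioc n₀ (n₀ + q)).filter (fun n : ℕ => 1 - δ ≤ Int.fract (n * y + β)) with hS
  have hKeq : ∀ n : ℕ, (K n : ℝ) = q * Int.fract ((n : ℝ) * y + β) - q * β - q * (n * θ) := by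
    intro n
    simp only [hK]
    push_cast
    rw [← hr]
    have := Int.fract_add_floor ((n : ℝ) * y + β)
    rw [hθ]
    linear_combination (-(q : ℝ)) * this
  have hmaps : ∀ n ∈ S, K n ∈ Icc ⌈c - q * δ - 1⌉ ⌊c + 1⌋ := by
    intro n hn
    rw [hS, mem_filter, mem_Ioc] at hn
    obtain ⟨⟨hn1, hn2⟩, hn3⟩ := hn
    have hf1 := Int.fract_lt_one ((n : ℝ) * y + β)
    have hdiff : |(q : ℝ) * (n * θ) - q * (n₀ * θ)| ≤ 1 := by
      have e1 : (q : ℝ) * (n * θ) - q * (n₀ * θ) = (q * (n - n₀)) * θ := by ring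
      have hnn : (0 : ℝ) ≤ (n : ℝ) - n₀ := by
        have : (n₀ : ℝ) ≤ n := by exact_mod_cast hn1.le
        linarith
      have hnq : (n : ℝ) - n₀ ≤ q := by
        have : (n : ℝ) ≤ n₀ + q := by exact_mod_cast hn2
        linarith
      rw [e1, abs_mul, abs_of_nonneg (by positivity)]
      have hqQ : (q : ℝ) ≤ Q := by exact_mod_cast hden
      calc (q : ℝ) * (n - n₀) * |θ| ≤ q * q * (1 / ((Q + 1) * q)) := by
            apply mul_le_mul _ hy (abs_nonneg _) (by positivity)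
            exact mul_le_mul_of_nonneg_left hnq hq0.le
        _ = q / (Q + 1) := by field_simp
        _ ≤ 1 := by
          rw [div_le_one hQ0]
          linarith
    rw [abs_le] at hdiff
    rw [mem_Icc, Int.ceil_le, Int.le_floor, hKeq]
    constructor
    · have : (q : ℝ) * (1 - δ) ≤ q * Int.fract ((n : ℝ) * y + β) :=
        mul_le_mul_of_nonneg_left hn3 hq0.le
      rw [hc]
      linarith [hdiff.2]
    · have : (q : ℝ) * Int.fract ((n : ℝ) * y + β) ≤ q * 1 :=
        mul_le_mul_of_nonneg_left hf1.le hq0.le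
      rw [hc]
      linarith [hdiff.1]
  have hinj : Set.InjOn K S := by
    intro n hn n' hn' he
    rw [mem_coe, hS, mem_filter, mem_Ioc] at hn hn'
    simp only [hK] at he
    have h1 : (q : ℤ) ∣ ((n : ℤ) - n') * p := by
      refine ⟨⌊(n : ℝ) * y + β⌋ - ⌊(n' : ℝ) * y + β⌋, ?_⟩
      linear_combination he
    have hcop : IsCoprime (q : ℤ) p := by
      rw [Int.isCoprime_iff_nat_coprime, Int.natAbs_natCast]
      exact r.reduced.symm
    have h2 : (q : ℤ) ∣ (n : ℤ) - n' := hcop.dvd_of_dvd_mul_right h1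
    have h3 : |(n : ℤ) - n'| < q := by
      rw [abs_lt]
      constructor <;> omega
    have h4 := Int.eq_zero_of_abs_lt_dvd h2 h3
    omega
  have hcard : S.card ≤ (Icc ⌈c - q * δ - 1⌉ ⌊c + 1⌋).card :=
    card_le_card_of_injOn K (fun n hn => hmaps n hn) hinj
  have h5 : ((Icc ⌈c - q * δ - 1⌉ ⌊c + 1⌋).card : ℝ) ≤ δ * q + 3 := by
    rw [Int.card_Icc]
    have h6 : ((⌊c + 1⌋ + 1 - ⌈c - q * δ - 1⌉ : ℤ) : ℝ) ≤ δ * q + 3 := by
      push_cast
      have := Int.floor_le (c + 1)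
      have := Int.le_ceil (c - q * δ - 1)
      linarith
    rcases le_or_gt 0 (⌊c + 1⌋ + 1 - ⌈c - q * δ - 1⌉) with h7 | h7
    · have h8 : (((⌊c + 1⌋ + 1 - ⌈c - q * δ - 1⌉).toNat : ℕ) : ℤ) = ⌊c + 1⌋ + 1 - ⌈c - q * δ - 1⌉ :=
        Int.toNat_of_nonneg h7
      have h9 : (((⌊c + 1⌋ + 1 - ⌈c - q * δ - 1⌉).toNat : ℕ) : ℝ) =
          ((⌊c + 1⌋ + 1 - ⌈c - q * δ - 1⌉ : ℤ) : ℝ) := by exact_mod_cast h8
      rw [h9]
      exact h6
    · rw [Int.toNat_of_nonpos h7.le]
      push_cast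
      positivity
  exact le_trans (by exact_mod_cast hcard) h5

open Classical in
lemma count (r : ℚ) (Q N : ℕ) (hden : r.den ≤ Q) (y β δ : ℝ) (hδ : 0 ≤ δ)
    (hy : |y - r| ≤ 1 / ((Q + 1) * r.den)) :
    (((Icc 1 N).filter (fun n : ℕ => 1 - δ ≤ Int.fract (n * y + β))).card : ℝ) ≤
      ((N : ℝ) / r.den + 1) * (δ * r.den + 3) := by
  set q := r.den with hq
  have hq0 : 0 < q := r.den_pos
  have hsub : (Icc 1 N).filter (fun n : ℕ => 1 - δ ≤ Int.fract (n * y + β)) ⊆
      (range (N / q + 1)).biUnion (fun i => (Ioc (i * q) (i * q + q)).filter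
        (fun n : ℕ => 1 - δ ≤ Int.fract (n * y + β))) := by
    intro n hn
    rw [mem_filter, mem_Icc] at hn
    rw [mem_biUnion]
    refine ⟨(n - 1) / q, ?_, ?_⟩
    · rw [mem_range]
      have : (n - 1) / q ≤ N / q := Nat.div_le_div_right (by omega)
      omega
    · rw [mem_filter, mem_Ioc]
      have h1 := Nat.div_add_mod (n - 1) q
      have h2 := Nat.mod_lt (n - 1) hq0
      refine ⟨⟨?_, ?_⟩, hn.2⟩
      · have : (n - 1) / q * q = q * ((n - 1) / q) := mul_comm _ _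
        omega
      · have : (n - 1) / q * q = q * ((n - 1) / q) := mul_comm _ _
        omega
  have h1 := (card_le_card hsub).trans card_biUnion_le
  have h2 : ((∑ i ∈ range (N / q + 1), ((Ioc (i * q) (i * q + q)).filter
        (fun n : ℕ => 1 - δ ≤ Int.fract (n * y + β))).card : ℕ) : ℝ) ≤
      ∑ i ∈ range (N / q + 1), (δ * q + 3) := by
    push_cast
    refine sum_le_sum fun i _ => ?_
    exact block r Q hden y β δ hδ hy (i * q)
  have h3 : ((N / q : ℕ) : ℝ) ≤ (N : ℝ) / q := Nat.cast_div_le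
  have hpos : 0 ≤ δ * q + 3 := by positivity
  calc _ ≤ ((∑ i ∈ range (N / q + 1), ((Ioc (i * q) (i * q + q)).filter
        (fun n : ℕ => 1 - δ ≤ Int.fract (n * y + β))).card : ℕ) : ℝ) := by exact_mod_cast h1
    _ ≤ ∑ i ∈ range (N / q + 1), (δ * q + 3) := h2
    _ = (((N / q : ℕ) : ℝ) + 1) * (δ * q + 3) := by
        rw [sum_const, card_range, nsmul_eq_mul]
        push_cast
        ring
    _ ≤ _ := mul_le_mul_of_nonneg_right (by linarith) hpos

end Pool.Agent.Run7.h776.MS
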