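import Pool.Agent.Run7.h776.MS.Step
import Pool.Agent.N915.WT.Final

/-! # First digits of all multiples decide equidistribution -/

set_option autoImplicit false

namespace Pool.Agent.Run7.h776.MS

open Finset Filter Topology
open Pool.Agent.H534R3.UDist (UD Weyl ud_of_weyl)
open scoped Real

lemma cnt_eq {b : ℕ} (hb : 0 < b) (N : ℕ) (x : ℕ → ℝ) (d : ℕ) :
    cnt b N x d = ((range N).filter fun n => (d : ℝ) / b ≤ Int.fract (x n) ∧
      Int.fract (x n) < ((d : ℝ) + 1) / b).card := by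
  unfold cnt
  congr 1
  ext n
  simp only [mem_filter, dig_eq_iff hb]

lemma tendsto_dev {b : ℕ} (x : ℕ → ℝ)
    (h : ∀ d < b, Tendsto (fun N : ℕ => (cnt b N x d : ℝ) / N) atTop (𝓝 (1 / b))) :
    Tendsto (fun N : ℕ => dev b N x / N) atTop (𝓝 0) := by
  have h1 : Tendsto (fun N : ℕ => ∑ d ∈ range b, |(cnt b N x d : ℝ) / N - 1 / b|) atTop
      (𝓝 (∑ d ∈ range b, |(1 : ℝ) / b - 1 / b|)) := by
    apply tendsto_finsetSum
    intro d hd
    exact ((h d (mem_range.1 hd)).sub_const _).abs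
  simp only [sub_self, abs_zero, sum_const_zero] at h1
  refine h1.congr' ?_
  filter_upwards [eventually_gt_atTop 0] with N hN
  have hN' : (0 : ℝ) < N := by exact_mod_cast hN
  unfold dev
  rw [sum_div]
  refine sum_congr rfl fun d _ => ?_
  have : (cnt b N x d : ℝ) / N - 1 / b = ((cnt b N x d : ℝ) - N / b) / N := by
    field_simp
  rw [this, abs_div, abs_of_pos hN']

/-- the averages of the exponentials -/
theorem ee_tendsto {b : ℕ} (hb : 3 ≤ b) (x : ℕ → ℝ)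
    (h : ∀ m : ℕ, 1 ≤ m → ∀ d < b,
      Tendsto (fun N : ℕ => (cnt b N (fun n => m * x n) d : ℝ) / N) atTop (𝓝 (1 / b))) :
    Tendsto (fun N : ℕ => ‖∑ n ∈ range N, Pool.Agent.H807R2.Dav.ee (x n)‖ / N) atTop (𝓝 0) := by
  obtain ⟨C, hC0, hC⟩ := main_ineq hb 1
  rw [Metric.tendsto_atTop]
  intro ε hε
  obtain ⟨M, hM2, hM⟩ : ∃ M : ℕ, 2 ≤ M ∧ C / Real.log M < ε / 2 := by
    have h1 : Tendsto (fun M : ℕ => C / Real.log M) atTop (𝓝 0) :=
      (Real.tendsto_log_atTop.comp tendsto_natCast_atTop_atTop).const_div_atTop C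
    obtain ⟨M, hM⟩ := ((h1.eventually (gt_mem_nhds (half_pos hε))).and
      (eventually_ge_atTop 2)).exists
    exact ⟨M, hM.2, hM.1⟩
  have h2 : Tendsto (fun N : ℕ => 4 * b * ∑ j ∈ Icc 1 M, 1 / (j : ℝ) *
      (dev b N (fun n => j * x n) / N)) atTop (𝓝 (4 * b * ∑ j ∈ Icc 1 M, 1 / (j : ℝ) * 0)) := by
    apply Tendsto.const_mul
    apply tendsto_finsetSum
    intro j hj
    rw [mem_Icc] at hj
    exact (tendsto_dev _ (h j hj.1)).const_mul _
  simp only [mul_zero, sum_const_zero] at h2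
  obtain ⟨N₀, hN₀⟩ := eventually_atTop.1 ((h2.eventually (gt_mem_nhds (half_pos hε))).and
    (eventually_gt_atTop 0))
  refine ⟨N₀, fun N hN => ?_⟩
  obtain ⟨h3, h4⟩ := hN₀ N hN
  have hN' : (0 : ℝ) < N := by exact_mod_cast h4
  rw [Real.dist_eq, sub_zero, abs_of_nonneg (by positivity)]
  have h5 := hC M hM2 N x
  rw [pow_one] at h5
  have h6 : ‖∑ n ∈ range N, Pool.Agent.H807R2.Dav.ee (x n)‖ / N ≤ C / Real.log M +
      4 * b * ∑ j ∈ Icc 1 M, 1 / (j : ℝ) * (dev b N (fun n => j * x n) / N) := by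
    rw [div_le_iff₀ hN']
    refine h5.trans (le_of_eq ?_)
    rw [add_mul, mul_assoc (4 * (b : ℝ)), sum_mul]
    congr 1
    · ring
    · congr 1
      refine sum_congr rfl fun j _ => ?_
      field_simp
  linarith

theorem ud_of_cnt {b : ℕ} (hb : 3 ≤ b) (x : ℕ → ℝ)
    (h : ∀ m : ℕ, 1 ≤ m → ∀ d < b,
      Tendsto (fun N : ℕ => (cnt b N (fun n => m * x n) d : ℝ) / N) atTop (𝓝 (1 / b))) : UD x := by
  apply ud_of_weyl
  intro k hk
  refine ee_tendsto hb (fun n => k * x n) fun m hm d hd => ?_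
  refine (h (m * k) (Nat.one_le_iff_ne_zero.2 (Nat.mul_ne_zero (by omega) (by omega))) d hd).congr
    fun N => ?_
  simp only [Nat.cast_mul, mul_assoc]

theorem ud_mul {x : ℕ → ℝ} (h : UD x) (m : ℕ) (hm : 1 ≤ m) : UD fun n => m * x n := by
  apply ud_of_weyl
  intro k hk
  have := Pool.Agent.N915.WT.weyl_int h ((k * m : ℕ) : ℤ) (by
    have h1 : k * m ≠ 0 := Nat.mul_ne_zero (by omega) (by omega)
    exact_mod_cast h1)
  refine this.congr fun N => ?_
  congr 2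
  refine sum_congr rfl fun n _ => ?_
  congr 1
  push_cast
  ring

theorem cnt_of_ud {b : ℕ} (hb : 0 < b) {x : ℕ → ℝ} (h : UD x) (d : ℕ) (hd : d < b) :
    Tendsto (fun N : ℕ => (cnt b N x d : ℝ) / N) atTop (𝓝 (1 / b)) := by
  have hbr : (0 : ℝ) < b := by exact_mod_cast hb
  have h1 := h ((d : ℝ) / b) (((d : ℝ) + 1) / b) (by positivity)
    (div_le_div_of_nonneg_right (by linarith) hbr.le) (by
      rw [div_le_one hbr]
      exact_mod_cast hd)
  have e : ((d : ℝ) + 1) / b - (d : ℝ) / b = 1 / b := by ring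
  rw [e] at h1
  refine h1.congr fun N => ?_
  rw [cnt_eq hb]

/-- **Equidistribution and first digits of the multiples.** -/
theorem ud_iff {b : ℕ} (hb : 3 ≤ b) (x : ℕ → ℝ) :
    UD x ↔ ∀ m : ℕ, 1 ≤ m → ∀ d < b,
      Tendsto (fun N : ℕ => (cnt b N (fun n => m * x n) d : ℝ) / N) atTop (𝓝 (1 / b)) :=
  ⟨fun h m hm d hd => cnt_of_ud (by omega) (ud_mul h m hm) d hd, ud_of_cnt hb x⟩

end Pool.Agent.Run7.h776.MS
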