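import Pool.Agent.Run7.h776.MS.Count

/-! # Sums of the sawtooth function along progressions near rational numbers -/

set_option autoImplicit false

namespace Pool.Agent.Run7.h776.MS

open Finset
open Pool.Agent.H807R2.Dav (ee norm_ee ee_add ee_zero ee_int ee_add_int)
open scoped Real

lemma abel (b : ℕ → ℂ) (m : ℕ → ℝ) (N : ℕ) (hN : 1 ≤ N) :
    ∑ n ∈ Icc 1 N, b n * (m n : ℂ) = (∑ n ∈ Icc 1 N, b n) * m N -
      ∑ k ∈ Ico 1 N, (∑ n ∈ Icc 1 k, b n) * ((m (k + 1) - m k : ℝ) : ℂ) := by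
  induction N, hN using Nat.le_induction with
  | base => simp
  | succ N hN ih =>
    rw [sum_Icc_succ_top (by omega), sum_Icc_succ_top (by omega), ih, sum_Ico_succ_top hN]
    push_cast
    ring

lemma mono_var (m : ℕ → ℝ) (N : ℕ) (hN : 1 ≤ N) (hm : ∀ n, 1 ≤ n → n < N → m n ≤ m (n + 1)) :
    ∑ k ∈ Ico 1 N, |m (k + 1) - m k| = m N - m 1 := by
  have h1 : ∑ k ∈ Ico 1 N, |m (k + 1) - m k| = ∑ k ∈ Ico 1 N, (m (k + 1) - m k) := by
    refine sum_congr rfl fun k hk => ?_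
    rw [mem_Ico] at hk
    exact abs_of_nonneg (by linarith [hm k hk.1 hk.2])
  rw [h1, sum_Ico_sub m hN]

lemma mono_bound (b : ℕ → ℂ) (m : ℕ → ℝ) (N : ℕ) {E B : ℝ}
    (hE : ∀ u ≤ N, ‖∑ n ∈ Icc 1 u, b n‖ ≤ E) (hB : ∀ n, n ≤ N → |m n| ≤ B)
    (hm : ∀ n, 1 ≤ n → n < N → m n ≤ m (n + 1)) :
    ‖∑ n ∈ Icc 1 N, b n * (m n : ℂ)‖ ≤ 3 * B * E := by
  have hE0 : 0 ≤ E := (norm_nonneg _).trans (hE 0 (Nat.zero_le _))
  have hB0 : 0 ≤ B := (abs_nonneg _).trans (hB 0 (Nat.zero_le _))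
  rcases Nat.eq_zero_or_pos N with h0 | h0
  · subst h0
    simp
    positivity
  rw [abel b m N h0]
  refine (norm_sub_le _ _).trans ?_
  have h1 : ‖(∑ n ∈ Icc 1 N, b n) * (m N : ℂ)‖ ≤ E * B := by
    rw [norm_mul, Complex.norm_real, Real.norm_eq_abs]
    exact mul_le_mul (hE N le_rfl) (hB N le_rfl) (abs_nonneg _) hE0
  have h2 : ‖∑ k ∈ Ico 1 N, (∑ n ∈ Icc 1 k, b n) * ((m (k + 1) - m k : ℝ) : ℂ)‖ ≤ E * (2 * B) := by
    refine (norm_sum_le _ _).trans ?_
    calc ∑ k ∈ Ico 1 N, ‖(∑ n ∈ Icc 1 k, b n) * ((m (k + 1) - m k : ℝ) : ℂ)‖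
        ≤ ∑ k ∈ Ico 1 N, E * |m (k + 1) - m k| := by
          refine sum_le_sum fun k hk => ?_
          rw [mem_Ico] at hk
          rw [norm_mul, Complex.norm_real, Real.norm_eq_abs]
          exact mul_le_mul_of_nonneg_right (hE k hk.2.le) (abs_nonneg _)
      _ = E * (m N - m 1) := by rw [← mul_sum, mono_var m N h0 hm]
      _ ≤ E * (2 * B) := by
          apply mul_le_mul_of_nonneg_left _ hE0
          have h3 := hB N le_rfl
          have h4 := hB 1 h0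
          rw [abs_le] at h3 h4
          linarith
  linarith

lemma anti_bound (b : ℕ → ℂ) (m : ℕ → ℝ) (N : ℕ) {E B : ℝ}
    (hE : ∀ u ≤ N, ‖∑ n ∈ Icc 1 u, b n‖ ≤ E) (hB : ∀ n, n ≤ N → |m n| ≤ B)
    (hm : ∀ n, 1 ≤ n → n < N → m (n + 1) ≤ m n) :
    ‖∑ n ∈ Icc 1 N, b n * (m n : ℂ)‖ ≤ 3 * B * E := by
  have h := mono_bound b (fun n => - m n) N hE (fun n hn => by rw [abs_neg]; exact hB n hn)
    (fun n h1 h2 => by have := hm n h1 h2; linarith)
  have e : ∑ n ∈ Icc 1 N, b n * (((- m n : ℝ)) : ℂ) = -∑ n ∈ Icc 1 N, b n * (m n : ℂ) := by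
    rw [← sum_neg_distrib]
    refine sum_congr rfl fun n _ => ?_
    push_cast
    ring
  rw [e, norm_neg] at h
  exact h

lemma orth (q : ℕ) (hq : 0 < q) (n r : ℕ) (hr : r < q) :
    ∑ s ∈ range q, ee (((n : ℝ) - r) * (s / q)) = if n % q = r then (q : ℂ) else 0 := by
  have hq0 : (q : ℝ) ≠ 0 := by positivity
  set z := ee (((n : ℝ) - r) / q) with hz
  have h1 : ∀ s : ℕ, ee (((n : ℝ) - r) * (s / q)) = z ^ s := by
    intro s
    rw [hz, ← Pool.Agent.H807R2.Dav.ee_pow]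
    congr 1
    ring
  simp only [h1]
  split_ifs with h
  · have h2 : z = 1 := by
      have h3 : ((n : ℝ) - r) / q = ((n / q : ℕ) : ℤ) := by
        rw [div_eq_iff hq0]
        have := Nat.div_add_mod n q
        rw [h] at this
        have h4 : (n : ℝ) = q * (n / q : ℕ) + r := by exact_mod_cast this.symm
        rw [h4, Int.cast_natCast]
        ring
      rw [hz, h3, ee_int]
    rw [h2]
    simp
  · have h2 : z ≠ 1 := by
      intro h3
      rw [hz] at h3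
      unfold ee at h3
      rw [Complex.exp_eq_one_iff] at h3
      obtain ⟨k, hk⟩ := h3
      have h4 : (((n : ℝ) - r) / q : ℝ) = k := by
        have h5 : (2 * π * Complex.I : ℂ) ≠ 0 := Complex.two_pi_I_ne_zero
        have h6 : (2 * π * Complex.I : ℂ) * (((((n : ℝ) - r) / q : ℝ)) : ℂ) =
            (2 * π * Complex.I) * ((k : ℝ) : ℂ) := by
          rw [hk]
          push_cast
          ring
        have h7 := mul_left_cancel₀ h5 h6
        exact_mod_cast h7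
      rw [div_eq_iff hq0] at h4
      have h5 : (n : ℤ) - r = k * q := by exact_mod_cast h4
      apply h
      have h6 : (n : ℤ) % q = r := by
        have : (n : ℤ) = r + q * k := by linarith
        rw [this, Int.add_mul_emod_self_left]
        exact Int.emod_eq_of_lt (by omega) (by exact_mod_cast hr)
      exact_mod_cast h6
    have h3 : z ^ q = 1 := by
      rw [hz, ← Pool.Agent.H807R2.Dav.ee_pow]
      have : (q : ℝ) * (((n : ℝ) - r) / q) = (((n : ℤ) - r : ℤ) : ℝ) := by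
        field_simp
        push_cast
        ring
      rw [this, ee_int]
    have h4 := geom_sum_eq h2 q
    rw [h4, h3, sub_self, zero_div]

lemma class_sum (a : ℕ → ℂ) (u q : ℕ) (hq : 0 < q) (r : ℕ) (hr : r < q) {E : ℝ}
    (hE : ∀ β : ℝ, ‖∑ n ∈ Icc 1 u, a n * ee (n * β)‖ ≤ E) :
    ‖∑ n ∈ Icc 1 u, (if n % q = r then a n else 0)‖ ≤ E := by
  have hq0 : (q : ℂ) ≠ 0 := by exact_mod_cast hq.ne'
  have h1 : ∑ n ∈ Icc 1 u, (if n % q = r then a n else 0) =
      (1 / (q : ℂ)) * ∑ s ∈ range q, ee (-(r * (s / q))) * ∑ n ∈ Icc 1 u, a n * ee (n * (s / q)) := by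
    simp only [mul_sum]
    rw [sum_comm]
    refine sum_congr rfl fun n _ => ?_
    have h2 := orth q hq n r hr
    have h3 : ∑ s ∈ range q, 1 / (q : ℂ) * (ee (-(r * (s / q))) * (a n * ee (n * (s / q)))) =
        (a n / q) * ∑ s ∈ range q, ee (((n : ℝ) - r) * (s / q)) := by
      rw [mul_sum]
      refine sum_congr rfl fun s _ => ?_
      have : ee (((n : ℝ) - r) * (s / q)) = ee (-(r * (s / q))) * ee (n * (s / q)) := by
        rw [← ee_add]
        congr 1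
        ring
      rw [this]
      ring
    rw [h3, h2]
    split_ifs
    · field_simp
    · simp
  rw [h1, norm_mul]
  have h2 : ‖∑ s ∈ range q, ee (-(r * (s / q))) * ∑ n ∈ Icc 1 u, a n * ee (n * (s / q))‖ ≤
      q * E := by
    refine (norm_sum_le _ _).trans ?_
    calc _ ≤ ∑ s ∈ range q, E := by
          refine sum_le_sum fun s _ => ?_
          rw [norm_mul, norm_ee, one_mul]
          exact hE _
      _ = _ := by simp
  calc ‖(1 / (q : ℂ))‖ * _ ≤ ‖(1 / (q : ℂ))‖ * (q * E) :=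
        mul_le_mul_of_nonneg_left h2 (norm_nonneg _)
    _ = E := by
        rw [norm_div, norm_one, Complex.norm_natCast]
        have : (q : ℝ) ≠ 0 := by exact_mod_cast hq.ne'
        field_simp

lemma major_class (a : ℕ → ℂ) (N : ℕ) {E : ℝ}
    (hE : ∀ u ≤ N, ∀ β : ℝ, ‖∑ n ∈ Icc 1 u, a n * ee (n * β)‖ ≤ E) (r : ℚ) (y β T : ℝ)
    (hT : N * |y - r| ≤ T) (r₀ : ℕ) (hr₀ : r₀ < r.den) :
    ‖∑ n ∈ Icc 1 N, (if n % r.den = r₀ then a n else 0) * ((psi (n * y + β) : ℝ) : ℂ)‖ ≤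
      7 * (1 + T) * E := by
  set q := r.den with hq
  have hq0 : 0 < q := r.den_pos
  have hqR : (q : ℝ) ≠ 0 := by exact_mod_cast hq0.ne'
  have hT0 : 0 ≤ T := le_trans (by positivity) hT
  have hE0 : 0 ≤ E := (norm_nonneg _).trans (hE 0 (Nat.zero_le _) 0)
  set θ : ℝ := y - r with hθ
  set c : ℝ := Int.fract ((r₀ : ℝ) * r + β) with hc
  have hc0 := Int.fract_nonneg ((r₀ : ℝ) * r + β)
  have hc1 := Int.fract_lt_one ((r₀ : ℝ) * r + β)
  set b : ℕ → ℂ := fun n => if n % q = r₀ then a n else 0 with hb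
  have hbE : ∀ u ≤ N, ‖∑ n ∈ Icc 1 u, b n‖ ≤ E := fun u hu =>
    class_sum a u q hq0 r₀ hr₀ (hE u hu)
  have hr : (r : ℝ) * q = r.num := by
    have := Rat.mul_den_eq_num r
    exact_mod_cast this
  have e1 : ∑ n ∈ Icc 1 N, b n * ((psi (n * y + β) : ℝ) : ℂ) =
      (1 / 2) * ∑ n ∈ Icc 1 N, b n - ∑ n ∈ Icc 1 N, b n * (((c + n * θ : ℝ)) : ℂ) +
        ∑ n ∈ Icc 1 N, b n * ((((⌊c + n * θ⌋ : ℤ) : ℝ)) : ℂ) := by
    rw [mul_sum, ← sum_sub_distrib, ← sum_add_distrib]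
    refine sum_congr rfl fun n _ => ?_
    by_cases hn : n % q = r₀
    · have h1 : psi (n * y + β) = 1 / 2 - (c + n * θ) + (⌊c + n * θ⌋ : ℤ) := by
        have h2 : (n : ℝ) = r₀ + q * (n / q : ℕ) := by
          have := Nat.div_add_mod n q
          rw [hn] at this
          have h4 : (n : ℝ) = q * (n / q : ℕ) + r₀ := by exact_mod_cast this.symm
          rw [h4]; ring
        have h3 : (n : ℝ) * y + β = c + n * θ + ((⌊(r₀ : ℝ) * r + β⌋ + (n / q : ℕ) * r.num : ℤ) : ℝ) := by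
          have h5 := Int.fract_add_floor ((r₀ : ℝ) * r + β)
          rw [Int.cast_add, Int.cast_mul, Int.cast_natCast]
          rw [← hr, hθ]
          have h6 : (n : ℝ) * r = r₀ * r + q * (n / q : ℕ) * r := by
            conv_lhs => rw [h2]
            ring
          linear_combination (-1 : ℝ) * h5 + h6
        rw [h3, psi_add_int]
        unfold psi
        have := Int.fract_add_floor (c + n * θ)
        linarith
      rw [h1]
      push_cast
      ring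
    · simp [hb, hn]
  rw [e1]
  have hθN : ∀ n : ℕ, n ≤ N → |(n : ℝ) * θ| ≤ T := by
    intro n hn
    rw [abs_mul, Nat.abs_cast]
    refine le_trans ?_ hT
    apply mul_le_mul_of_nonneg_right _ (abs_nonneg _)
    exact_mod_cast hn
  have hB1 : ∀ n : ℕ, n ≤ N → |c + n * θ| ≤ 1 + T := by
    intro n hn
    have := hθN n hn
    rw [abs_le] at this ⊢
    constructor <;> linarith
  have hB2 : ∀ n : ℕ, n ≤ N → |((⌊c + n * θ⌋ : ℤ) : ℝ)| ≤ 1 + T := by
    intro n hn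
    have := hθN n hn
    rw [abs_le] at this ⊢
    have h1 := Int.floor_le (c + n * θ)
    have h2 := Int.lt_floor_add_one (c + n * θ)
    constructor <;> linarith
  have hA1 : ‖∑ n ∈ Icc 1 N, b n * (((c + n * θ : ℝ)) : ℂ)‖ ≤ 3 * (1 + T) * E := by
    rcases le_or_gt 0 θ with h | h
    · exact mono_bound b (fun n => c + n * θ) N hbE hB1 (fun n _ _ => by push_cast; nlinarith)
    · exact anti_bound b (fun n => c + n * θ) N hbE hB1 (fun n _ _ => by push_cast; nlinarith)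
  have hA2 : ‖∑ n ∈ Icc 1 N, b n * ((((⌊c + n * θ⌋ : ℤ) : ℝ)) : ℂ)‖ ≤ 3 * (1 + T) * E := by
    rcases le_or_gt 0 θ with h | h
    · refine mono_bound b (fun n => ((⌊c + n * θ⌋ : ℤ) : ℝ)) N hbE hB2 (fun n _ _ => ?_)
      exact_mod_cast Int.floor_le_floor (by push_cast; nlinarith)
    · refine anti_bound b (fun n => ((⌊c + n * θ⌋ : ℤ) : ℝ)) N hbE hB2 (fun n _ _ => ?_)
      exact_mod_cast Int.floor_le_floor (by push_cast; nlinarith)
  have hA3 : ‖(1 / 2 : ℂ) * ∑ n ∈ Icc 1 N, b n‖ ≤ 1 / 2 * E := by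
    rw [norm_mul]
    apply mul_le_mul _ (hbE N le_rfl) (norm_nonneg _) (by norm_num)
    norm_num
  refine (norm_add_le _ _).trans ?_
  have := norm_sub_le ((1 / 2 : ℂ) * ∑ n ∈ Icc 1 N, b n) (∑ n ∈ Icc 1 N, b n * (((c + n * θ : ℝ)) : ℂ))
  nlinarith [mul_nonneg hT0 hE0]

lemma major (a : ℕ → ℂ) (N : ℕ) {E : ℝ}
    (hE : ∀ u ≤ N, ∀ β : ℝ, ‖∑ n ∈ Icc 1 u, a n * ee (n * β)‖ ≤ E) (r : ℚ) (y β T : ℝ)
    (hT : N * |y - r| ≤ T) :
    ‖∑ n ∈ Icc 1 N, a n * ((psi (n * y + β) : ℝ) : ℂ)‖ ≤ r.den * (7 * (1 + T) * E) := by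
  have e1 : ∑ n ∈ Icc 1 N, a n * ((psi (n * y + β) : ℝ) : ℂ) = ∑ r₀ ∈ range r.den,
      ∑ n ∈ Icc 1 N, (if n % r.den = r₀ then a n else 0) * ((psi (n * y + β) : ℝ) : ℂ) := by
    rw [sum_comm]
    refine sum_congr rfl fun n _ => ?_
    rw [← sum_mul]
    congr 1
    rw [sum_ite_eq, if_pos (mem_range.2 (Nat.mod_lt _ r.den_pos))]
  rw [e1]
  refine (norm_sum_le _ _).trans ?_
  calc _ ≤ ∑ r₀ ∈ range r.den, 7 * (1 + T) * E := sum_le_sum fun r₀ hr₀ =>
        major_class a N hE r y β T hT r₀ (mem_range.1 hr₀)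
    _ = _ := by simp

/-- the main estimate -/
theorem saw_sum (a : ℕ → ℂ) (ha : ∀ n, ‖a n‖ ≤ 1) (N : ℕ) {E : ℝ}
    (hE : ∀ u ≤ N, ∀ β : ℝ, ‖∑ n ∈ Icc 1 u, a n * ee (n * β)‖ ≤ E) (L : ℝ) (hL : 1 ≤ L) (y β : ℝ) :
    ‖∑ n ∈ Icc 1 N, a n * ((psi (n * y + β) : ℝ) : ℂ)‖ ≤ 15 * L * E + 6 * N / L + 5 := by
  classical
  have hE0 : 0 ≤ E := (norm_nonneg _).trans (hE 0 (Nat.zero_le _) 0)
  have hL0 : 0 < L := by linarith
  have hN0 : (0 : ℝ) ≤ N := Nat.cast_nonneg _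
  set Q : ℕ := ⌊(N : ℝ) / L⌋₊ + 1 with hQ
  have hQ1 : (N : ℝ) / L ≤ Q := by
    rw [hQ]
    push_cast
    exact (Nat.lt_floor_add_one _).le
  have hQ2 : (Q : ℝ) ≤ (N : ℝ) / L + 1 := by
    rw [hQ]
    push_cast
    have := Nat.floor_le (show (0 : ℝ) ≤ (N : ℝ) / L by positivity)
    linarith
  have hQpos : 0 < Q := by omega
  obtain ⟨r, hr1, hr2⟩ := Real.exists_rat_abs_sub_le_and_den_le y hQpos
  have hq0 : (0 : ℝ) < r.den := by exact_mod_cast r.den_pos
  have hQ10 : (0 : ℝ) < (Q : ℝ) + 1 := by positivity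
  rcases le_or_gt (r.den : ℝ) L with hcase | hcase
  · have hT : (N : ℝ) * |y - r| ≤ N / ((Q + 1) * r.den) := by
      calc (N : ℝ) * |y - r| ≤ N * (1 / ((Q + 1) * r.den)) := mul_le_mul_of_nonneg_left hr1 hN0
        _ = _ := by ring
    have h1 := major a N hE r y β _ hT
    refine h1.trans ?_
    have h2 : (r.den : ℝ) * (7 * (1 + N / ((Q + 1) * r.den)) * E) =
        7 * (r.den + N / (Q + 1)) * E := by
      field_simp
    rw [h2]
    have h3 : (N : ℝ) / (Q + 1) ≤ L := by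
      rw [div_le_iff₀ hQ10]
      rw [div_le_iff₀ hL0] at hQ1
      nlinarith
    have h4 : 7 * ((r.den : ℝ) + N / (Q + 1)) * E ≤ 7 * (L + L) * E := by
      apply mul_le_mul_of_nonneg_right _ hE0
      linarith
    have h5 : 0 ≤ 6 * (N : ℝ) / L := by positivity
    nlinarith [mul_nonneg hL0.le hE0]
  · have hδ0 : 0 < 1 / L := by positivity
    have hδ1 : 1 / L ≤ 1 := by rw [div_le_one hL0]; exact hL
    have h1 := psi_sum_bound (Icc 1 N) a ha (hE N le_rfl) y β (1 / L) hδ0 hδ1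
    have h2 := count r Q N hr2 y β (1 / L) hδ0.le hr1
    refine h1.trans ?_
    have h3 : ((Icc 1 N).card : ℝ) = N := by simp
    rw [h3]
    have h4 : E / (3 * (1 / L)) ≤ L * E := by
      rw [div_le_iff₀ (by positivity)]
      field_simp
      nlinarith
    have h5 : ((N : ℝ) / r.den + 1) * (1 / L * r.den + 3) ≤ 5 * N / L + 5 := by
      have e : ((N : ℝ) / r.den + 1) * (1 / L * r.den + 3) = N / L + 3 * (N / r.den) + r.den / L + 3 := by
        field_simp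
        ring
      rw [e]
      have h6 : (N : ℝ) / r.den ≤ N / L := div_le_div_of_nonneg_left hN0 hL0 hcase.le
      have h7 : (r.den : ℝ) ≤ N / L + 1 := by
        have : (r.den : ℝ) ≤ Q := by exact_mod_cast hr2
        linarith
      have h8 : (r.den : ℝ) / L ≤ N / L + 1 := by
        rw [div_le_iff₀ hL0]
        have : 0 ≤ (N : ℝ) / L + 1 := by positivity
        nlinarith
      have h9 : 5 * (N : ℝ) / L = 5 * (N / L) := by ring
      rw [h9]
      linarith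
    have h6 : 1 / L / 2 * N ≤ N / L := by
      have : 1 / L / 2 * (N : ℝ) = (N / L) / 2 := by ring
      rw [this]
      have : 0 ≤ (N : ℝ) / L := by positivity
      linarith
    have h7 : 6 * (N : ℝ) / L = N / L + 5 * N / L := by ring
    rw [h7]
    nlinarith [mul_nonneg hL0.le hE0]

end Pool.Agent.Run7.h776.MS
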