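import Pool.Agent.Run7.h776.MS.Prim

/-! # Moebius inversion of an absolutely convergent double series -/

set_option autoImplicit false

namespace Pool.Agent.Run7.h776.MS

open Finset Filter Topology
open scoped Real

lemma sum_mu_divisors (n : ℕ) :
    ∑ x ∈ n.divisorsAntidiagonal, mu x.1 = if n = 1 then 1 else 0 := by
  have h := congrArg (fun f : ArithmeticFunction ℤ => f n) ArithmeticFunction.moebius_mul_coe_zeta
  simp only [ArithmeticFunction.coe_mul_zeta_apply, ArithmeticFunction.one_apply] at h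
  rw [Nat.sum_divisorsAntidiagonal (fun i _ => mu i)]
  unfold mu
  rw [← Int.cast_sum, h]
  split_ifs <;> simp

theorem mob (c : ℕ → ℂ) (C : ℝ) (hc : ∀ n, ‖c n‖ ≤ C * (1 / (n : ℝ) ^ 2)) :
    Tendsto (fun J : ℕ => ∑ j ∈ Icc 1 J, mu j * ∑' k : ℕ+, c (j * k)) atTop (𝓝 (c 1)) := by
  have hC0 : 0 ≤ C := by
    have := (norm_nonneg _).trans (hc 1)
    simpa using this
  set F : ℕ+ × ℕ+ → ℂ := fun p => mu p.1 * c (p.1 * p.2) with hF
  have hs1 : Summable (fun n : ℕ+ => 1 / (n : ℝ) ^ 2) :=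
    (Real.summable_one_div_nat_pow.2 (by norm_num : 1 < 2)).comp_injective PNat.coe_injective
  have hs2 : Summable (fun p : ℕ+ × ℕ+ => C * (1 / (p.1 : ℝ) ^ 2 * (1 / (p.2 : ℝ) ^ 2))) :=
    (hs1.mul_of_nonneg hs1 (fun _ => by positivity) (fun _ => by positivity)).mul_left C
  have hFs : Summable F := by
    refine Summable.of_norm_bounded hs2 fun p => ?_
    rw [hF]
    simp only [norm_mul]
    calc ‖mu p.1‖ * ‖c (p.1 * p.2)‖ ≤ 1 * (C * (1 / (((p.1 : ℕ) * (p.2 : ℕ) : ℕ) : ℝ) ^ 2)) :=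
          mul_le_mul (mu_norm _) (hc _) (norm_nonneg _) zero_le_one
      _ = _ := by
          push_cast
          have h1 : ((p.1 : ℕ) : ℝ) ≠ 0 := by exact_mod_cast p.1.ne_zero
          have h2 : ((p.2 : ℕ) : ℝ) ≠ 0 := by exact_mod_cast p.2.ne_zero
          field_simp
  have htot : ∑' p : ℕ+ × ℕ+, F p = c 1 := by
    rw [← sigmaAntidiagonalEquivProd.tsum_eq]
    have hs3 : Summable (fun x : (Σ n : ℕ+, Nat.divisorsAntidiagonal n) =>
        F (sigmaAntidiagonalEquivProd x)) := sigmaAntidiagonalEquivProd.summable_iff.2 hFs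
    rw [hs3.tsum_sigma]
    have h1 : ∀ n : ℕ+, ∑' x : Nat.divisorsAntidiagonal n, F (sigmaAntidiagonalEquivProd ⟨n, x⟩) =
        if n = 1 then c 1 else 0 := by
      intro n
      rw [tsum_fintype]
      have h2 : ∀ x : Nat.divisorsAntidiagonal n, F (sigmaAntidiagonalEquivProd ⟨n, x⟩) =
          mu x.1.1 * c n := by
        intro x
        have h3 := divisorsAntidiagonalFactors_eq x
        have h4 : (((divisorsAntidiagonalFactors n x).1 : ℕ) * ((divisorsAntidiagonalFactors n x).2 : ℕ))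
            = n := h3
        show mu ((divisorsAntidiagonalFactors n x).1 : ℕ) *
          c (((divisorsAntidiagonalFactors n x).1 : ℕ) * ((divisorsAntidiagonalFactors n x).2 : ℕ)) = _
        rw [h4]
        rfl
      simp only [h2]
      rw [← sum_mul, univ_eq_attach, sum_attach _ (fun x : ℕ × ℕ => mu x.1), sum_mu_divisors]
      by_cases hn : n = 1
      · subst hn; simp
      · have : (n : ℕ) ≠ 1 := by
          intro h
          exact hn (PNat.coe_injective h)
        rw [if_neg this, if_neg hn, zero_mul]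
    simp only [h1]
    rw [tsum_ite_eq]
  have hsum : HasSum (fun j : ℕ+ => mu j * ∑' k : ℕ+, c (j * k)) (c 1) := by
    have h1 := hFs.hasSum
    rw [htot] at h1
    have h2 : ∀ j : ℕ+, HasSum (fun k : ℕ+ => F (j, k)) (mu j * ∑' k : ℕ+, c (j * k)) := by
      intro j
      have h3 : Summable (fun k : ℕ+ => F (j, k)) := hFs.prod_factor j
      have h4 : ∑' k : ℕ+, F (j, k) = mu j * ∑' k : ℕ+, c (j * k) := by
        rw [← tsum_mul_left]
      rw [← h4]
      exact h3.hasSum
    exact h1.prod_fiberwise h2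
  have hsum2 : HasSum (fun n : ℕ => mu (n + 1) * ∑' k : ℕ+, c ((n + 1) * k)) (c 1) := by
    have h1 := (Equiv.pnatEquivNat.symm.hasSum_iff (f := fun j : ℕ+ => mu j * ∑' k : ℕ+, c (j * k))
      (a := c 1)).2 hsum
    exact h1
  refine hsum2.tendsto_sum_nat.congr fun J => ?_
  rw [range_eq_Ico, sum_Ico_add' (fun j => mu j * ∑' k : ℕ+, c (j * k)) 0 J 1]
  rfl

end Pool.Agent.Run7.h776.MS
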