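import Pool.Agent.Run7.h776.MS.Major
import Pool.Agent.H373R2.T7.SupMu

/-! # The Moebius function against twisted sawtooth functions -/

set_option autoImplicit false

namespace Pool.Agent.Run7.h776.MS

open Finset
open Pool.Agent.H807R2.Dav (ee norm_ee ee_add ee_zero ee_int ee_add_int)
open scoped Real

/-- the Moebius function -/
noncomputable def mu (n : ℕ) : ℂ := ((ArithmeticFunction.moebius n : ℤ) : ℂ)

lemma mu_norm (n : ℕ) : ‖mu n‖ ≤ 1 := by
  unfold mu
  rw [Complex.norm_intCast]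
  exact_mod_cast ArithmeticFunction.abs_moebius_le_one

lemma mu_zero : mu 0 = 0 := by simp [mu]

lemma mu_one : mu 1 = 1 := by simp [mu]

theorem mu_unif (U : ℕ) : ∃ C : ℝ, 1 ≤ C ∧ ∀ N : ℕ, 2 ≤ N → ∀ u ≤ N, ∀ β : ℝ,
    ‖∑ n ∈ Icc 1 u, mu n * ee (n * β)‖ ≤ C * N / Real.log N ^ U := by
  obtain ⟨N₁, h1⟩ := Pool.Agent.H373R2.T7.sup_mu U
  obtain ⟨N₂, h2⟩ := Pool.Agent.H373R2.T7.ev_log' U 1
  set N₀ := max (N₁ * N₁ + 4) N₂ with hN₀
  set C : ℝ := 2 ^ U + Real.log N₀ ^ U + 1 with hC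
  have hN04 : (4 : ℝ) ≤ N₀ := by
    have : 4 ≤ N₀ := le_trans (by omega) (le_max_left _ _)
    exact_mod_cast this
  have hlog0 : 0 ≤ Real.log N₀ := Real.log_nonneg (by linarith)
  have h2U : (1 : ℝ) ≤ 2 ^ U := one_le_pow₀ (by norm_num)
  have hl0U : 0 ≤ Real.log N₀ ^ U := pow_nonneg hlog0 _
  refine ⟨C, by rw [hC]; linarith, fun N hN u hu β => ?_⟩
  have hNr : (2 : ℝ) ≤ N := by exact_mod_cast hN
  have hL0 : 0 < Real.log N := Real.log_pos (by linarith)
  have hLU : 0 < Real.log N ^ U := pow_pos hL0 _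
  have htriv : ‖∑ n ∈ Icc 1 u, mu n * ee (n * β)‖ ≤ u := by
    refine (norm_sum_le _ _).trans ?_
    calc ∑ n ∈ Icc 1 u, ‖mu n * ee (n * β)‖ ≤ ∑ n ∈ Icc 1 u, (1 : ℝ) := by
          refine sum_le_sum fun n _ => ?_
          rw [norm_mul, norm_ee, mul_one]
          exact mu_norm n
      _ = u := by simp
  have hur : (u : ℝ) ≤ N := by exact_mod_cast hu
  rw [le_div_iff₀ hLU]
  rcases lt_or_ge N N₀ with hcase | hcase
  · have h3 : Real.log N ^ U ≤ Real.log N₀ ^ U := by
      apply pow_le_pow_left₀ hL0.le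
      exact Real.log_le_log (by linarith) (by exact_mod_cast hcase.le)
    calc _ ≤ (N : ℝ) * Real.log N₀ ^ U :=
          mul_le_mul (htriv.trans hur) h3 hLU.le (by positivity)
      _ ≤ C * N := by
          rw [hC]
          nlinarith
  have hN2 : N₂ ≤ N := le_trans (le_max_right _ _) hcase
  have hN1 : N₁ * N₁ + 4 ≤ N := le_trans (le_max_left _ _) hcase
  rcases le_or_gt (u * u) N with hsq | hsq
  · have h3 := h2 N hN2
    rw [one_mul] at h3
    have h4 : (u : ℝ) ≤ √N := by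
      apply Real.le_sqrt_of_sq_le
      have : ((u * u : ℕ) : ℝ) ≤ N := by exact_mod_cast hsq
      push_cast at this
      nlinarith
    have h5 : √(N : ℝ) * √N = N := Real.mul_self_sqrt (by positivity)
    calc _ ≤ √(N : ℝ) * √N := mul_le_mul (htriv.trans h4) h3 hLU.le (Real.sqrt_nonneg _)
      _ = N := h5
      _ ≤ C * N := by
          rw [hC]
          nlinarith
  · have hu1 : N₁ ≤ u := by
      by_contra hcon
      push Not at hcon
      have : u * u ≤ N₁ * N₁ := Nat.mul_le_mul hcon.le hcon.le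
      omega
    have hu2 : 2 ≤ u := by
      by_contra hcon
      push Not at hcon
      have : u * u ≤ 1 * 1 := Nat.mul_le_mul (by omega) (by omega)
      omega
    have h3 := h1 u hu1 β
    have h4 : ‖∑ n ∈ Icc 1 u, mu n * ee (n * β)‖ ≤ u / Real.log u ^ U := by
      refine le_trans (le_of_eq ?_) h3
      congr 1
    have hur0 : (0 : ℝ) < u := by
      have : 0 < u := by omega
      exact_mod_cast this
    have hlu : 0 < Real.log u := Real.log_pos (by exact_mod_cast (by omega : 1 < u))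
    have h5 : Real.log N ≤ 2 * Real.log u := by
      have h6 : Real.log N ≤ Real.log ((u : ℝ) * u) := by
        apply Real.log_le_log (by linarith)
        exact_mod_cast hsq.le
      rw [Real.log_mul hur0.ne' hur0.ne'] at h6
      linarith
    calc _ ≤ u / Real.log u ^ U * (2 * Real.log u) ^ U :=
          mul_le_mul h4 (pow_le_pow_left₀ hL0.le h5 U) hLU.le (by positivity)
      _ = u * 2 ^ U := by
          rw [mul_pow]
          field_simp
      _ ≤ N * 2 ^ U := mul_le_mul_of_nonneg_right hur (by positivity)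
      _ ≤ C * N := by
          rw [hC]
          nlinarith

/-- periodic completely multiplicative functions -/
structure PG (b : ℕ) (g : ℕ → ℂ) : Prop where
  per : ∀ n, g (n % b) = g n
  mul : ∀ m n, g (m * n) = g m * g n
  one : g 1 = 1
  zero : g 0 = 0
  norm : ∀ n, ‖g n‖ ≤ 1

/-- the discrete Fourier transform -/
noncomputable def TT (b : ℕ) (g : ℕ → ℂ) (d : ℕ) : ℂ :=
  ∑ m ∈ range b, g m * ee (-(m * (d / b)))

/-- the step function with the Fourier coefficients `g k / (2 i k)` -/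
noncomputable def EE (b : ℕ) (g : ℕ → ℂ) (t : ℝ) : ℂ :=
  (π / b : ℝ) * ∑ d ∈ range b, TT b g d * ((psi (t + d / b) : ℝ) : ℂ)

section

variable {b : ℕ} {g : ℕ → ℂ}

lemma TT_norm (hb : 0 < b) (hg : PG b g) (d : ℕ) : ‖TT b g d‖ ≤ b := by
  unfold TT
  refine (norm_sum_le _ _).trans ?_
  calc ∑ m ∈ range b, ‖g m * ee (-(m * (d / b)))‖ ≤ ∑ m ∈ range b, (1 : ℝ) := by
        refine sum_le_sum fun m _ => ?_
        rw [norm_mul, norm_ee, mul_one]
        exact hg.norm m
    _ = b := by simp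

lemma inv (hb : 0 < b) (hg : PG b g) (n : ℕ) :
    ∑ d ∈ range b, TT b g d * ee (n * (d / b)) = b * g n := by
  unfold TT
  simp only [sum_mul]
  rw [sum_comm]
  have h1 : ∀ m ∈ range b, ∑ d ∈ range b, g m * ee (-(m * (d / b))) * ee (n * (d / b)) =
      g m * if n % b = m then (b : ℂ) else 0 := by
    intro m hm
    rw [← orth b hb n m (mem_range.1 hm), mul_sum]
    refine sum_congr rfl fun d _ => ?_
    rw [mul_assoc, ← ee_add]
    congr 2
    ring
  rw [sum_congr rfl h1]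
  simp only [mul_ite, mul_zero]
  rw [sum_ite_eq, if_pos (mem_range.2 (Nat.mod_lt _ hb)), hg.per]
  ring

lemma sum_TT (hb : 0 < b) (hg : PG b g) : ∑ d ∈ range b, TT b g d = 0 := by
  have h := inv hb hg 0
  rw [hg.zero, mul_zero] at h
  rw [← h]
  refine sum_congr rfl fun d _ => ?_
  rw [Nat.cast_zero, zero_mul, ee_zero, mul_one]

lemma twist (hb : 0 < b) (hg : PG b g) (u : ℕ) {E : ℝ}
    (hE : ∀ β : ℝ, ‖∑ n ∈ Icc 1 u, mu n * ee (n * β)‖ ≤ E) (β : ℝ) :
    ‖∑ n ∈ Icc 1 u, mu n * g n * ee (n * β)‖ ≤ b * E := by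
  have hb0 : (b : ℂ) ≠ 0 := by exact_mod_cast hb.ne'
  have hE0 : 0 ≤ E := (norm_nonneg _).trans (hE 0)
  have h1 : ∑ n ∈ Icc 1 u, mu n * g n * ee (n * β) =
      (1 / (b : ℂ)) * ∑ d ∈ range b, TT b g d * ∑ n ∈ Icc 1 u, mu n * ee (n * (β + d / b)) := by
    simp only [mul_sum]
    rw [sum_comm]
    refine sum_congr rfl fun n _ => ?_
    have h2 : g n = (1 / (b : ℂ)) * ∑ d ∈ range b, TT b g d * ee (n * (d / b)) := by
      rw [inv hb hg n]
      field_simp
    rw [h2, mul_sum, mul_sum, sum_mul]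
    refine sum_congr rfl fun d _ => ?_
    have : ee (n * (β + d / b)) = ee (n * (d / b)) * ee (n * β) := by
      rw [← ee_add]
      congr 1
      ring
    rw [this]
    ring
  rw [h1, norm_mul]
  have h2 : ‖∑ d ∈ range b, TT b g d * ∑ n ∈ Icc 1 u, mu n * ee (n * (β + d / b))‖ ≤
      b * (b * E) := by
    refine (norm_sum_le _ _).trans ?_
    calc _ ≤ ∑ d ∈ range b, (b : ℝ) * E := by
          refine sum_le_sum fun d _ => ?_
          rw [norm_mul]
          exact mul_le_mul (TT_norm hb hg d) (hE _) (norm_nonneg _) (Nat.cast_nonneg _)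
      _ = _ := by simp
  calc ‖(1 / (b : ℂ))‖ * _ ≤ ‖(1 / (b : ℂ))‖ * (b * (b * E)) :=
        mul_le_mul_of_nonneg_left h2 (norm_nonneg _)
    _ = b * E := by
        rw [norm_div, norm_one, Complex.norm_natCast]
        have : (b : ℝ) ≠ 0 := by exact_mod_cast hb.ne'
        field_simp

/-- the twisted form of Davenport's bound for sawtooth functions -/
theorem saw_mu (hb : 0 < b) (hg : PG b g) (A : ℕ) : ∃ C : ℝ, 0 < C ∧ ∀ N : ℕ, 2 ≤ N → ∀ y β : ℝ,
    ‖∑ n ∈ Icc 1 N, mu n * g n * ((psi (n * y + β) : ℝ) : ℂ)‖ ≤ C * N / Real.log N ^ A := by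
  obtain ⟨C, hC1, hC⟩ := mu_unif (2 * A)
  obtain ⟨N₂, h2⟩ := Pool.Agent.H373R2.T7.ev_log' A 1
  have hbr : (1 : ℝ) ≤ b := by exact_mod_cast hb
  set l2 := Real.log 2 with hl2
  have hl20 : 0 < l2 := Real.log_pos (by norm_num)
  set C' : ℝ := 15 * (b * C) * (1 / l2 ^ A + 1) + 6 + 5 * (1 + Real.log (max N₂ 2) ^ A) with hC'
  have hlN2 : 0 ≤ Real.log (max N₂ 2) ^ A := by
    apply pow_nonneg
    apply Real.log_nonneg
    exact le_trans (by norm_num) (le_max_right _ _)
  refine ⟨C', by rw [hC']; positivity, fun N hN y β => ?_⟩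
  have hNr : (2 : ℝ) ≤ N := by exact_mod_cast hN
  have hL0 : 0 < Real.log N := Real.log_pos (by linarith)
  have hlA : l2 ≤ Real.log N := Real.log_le_log (by norm_num) hNr
  set X := Real.log N ^ A with hX
  have hX0 : 0 < X := pow_pos hL0 _
  have hX1 : l2 ^ A ≤ X := pow_le_pow_left₀ hl20.le hlA _
  have hE : ∀ u ≤ N, ∀ β : ℝ, ‖∑ n ∈ Icc 1 u, mu n * g n * ee (n * β)‖ ≤
      b * (C * N / Real.log N ^ (2 * A)) := fun u hu β => twist hb hg u (hC N hN u hu) β
  have hmain := saw_sum (fun n => mu n * g n) (fun n => by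
    rw [norm_mul]
    exact mul_le_one₀ (mu_norm n) (norm_nonneg _) (hg.norm n)) N hE (1 + X) (by linarith) y β
  refine hmain.trans ?_
  have e1 : Real.log N ^ (2 * A) = X * X := by rw [two_mul, pow_add]
  rw [e1]
  have t1 : 15 * (1 + X) * (b * (C * N / (X * X))) ≤ 15 * (b * C) * (1 / l2 ^ A + 1) * N / X := by
    have h3 : (1 + X) / (X * X) ≤ (1 / l2 ^ A + 1) / X := by
      rw [div_le_div_iff₀ (by positivity) hX0]
      have h4 : 1 ≤ 1 / l2 ^ A * X := by
        rw [one_div, ← div_eq_inv_mul, one_le_div (by positivity)]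
        exact hX1
      have h5 : (1 + X) * X ≤ (1 / l2 ^ A * X + X) * X :=
        mul_le_mul_of_nonneg_right (by linarith) hX0.le
      calc (1 + X) * X ≤ (1 / l2 ^ A * X + X) * X := h5
        _ = _ := by ring
    calc 15 * (1 + X) * (b * (C * N / (X * X))) = 15 * (b * C) * N * ((1 + X) / (X * X)) := by ring
      _ ≤ 15 * (b * C) * N * ((1 / l2 ^ A + 1) / X) := by
          apply mul_le_mul_of_nonneg_left h3
          positivity
      _ = _ := by ring
  have t2 : 6 * (N : ℝ) / (1 + X) ≤ 6 * N / X := by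
    apply div_le_div_of_nonneg_left (by positivity) hX0 (by linarith)
  have t3 : (5 : ℝ) ≤ 5 * (1 + Real.log (max N₂ 2) ^ A) * N / X := by
    rw [le_div_iff₀ hX0]
    rcases le_or_gt N₂ N with h | h
    · have h3 := h2 N h
      rw [one_mul] at h3
      have h4 : √(N : ℝ) ≤ N := by
        rw [Real.sqrt_le_left (by linarith)]
        nlinarith
      nlinarith
    · have h3 : X ≤ Real.log (max N₂ 2) ^ A := by
        apply pow_le_pow_left₀ hL0.le
        apply Real.log_le_log (by linarith)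
        refine le_trans ?_ (le_max_left _ _)
        exact_mod_cast h.le
      nlinarith
  calc _ ≤ 15 * (b * C) * (1 / l2 ^ A + 1) * N / X + 6 * N / X +
        5 * (1 + Real.log (max N₂ 2) ^ A) * N / X := by linarith
    _ = C' * N / X := by rw [hC']; ring

theorem EE_mu (hb : 0 < b) (hg : PG b g) (A : ℕ) : ∃ C : ℝ, 0 < C ∧ ∀ N : ℕ, 2 ≤ N → ∀ t : ℝ,
    ‖∑ j ∈ Icc 1 N, mu j * g j * EE b g (j * t)‖ ≤ C * N / Real.log N ^ A := by
  obtain ⟨C, hC0, hC⟩ := saw_mu hb hg A
  have hbr : (1 : ℝ) ≤ b := by exact_mod_cast hb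
  refine ⟨π * b * C, by positivity, fun N hN t => ?_⟩
  have e1 : ∑ j ∈ Icc 1 N, mu j * g j * EE b g (j * t) = ((π / b : ℝ) : ℂ) *
      ∑ d ∈ range b, TT b g d * ∑ j ∈ Icc 1 N, mu j * g j * ((psi (j * t + d / b) : ℝ) : ℂ) := by
    unfold EE
    simp only [mul_sum]
    rw [sum_comm]
    refine sum_congr rfl fun d _ => ?_
    refine sum_congr rfl fun j _ => ?_
    ring
  have hX : 0 ≤ C * N / Real.log N ^ A := (norm_nonneg _).trans (hC N hN 0 0)
  rw [e1, norm_mul, Complex.norm_real, Real.norm_eq_abs, abs_of_nonneg (by positivity)]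
  have h2 : ‖∑ d ∈ range b, TT b g d * ∑ j ∈ Icc 1 N, mu j * g j * ((psi (j * t + d / b) : ℝ) : ℂ)‖
      ≤ b * (b * (C * N / Real.log N ^ A)) := by
    refine (norm_sum_le _ _).trans ?_
    calc _ ≤ ∑ d ∈ range b, (b : ℝ) * (C * N / Real.log N ^ A) := by
          refine sum_le_sum fun d _ => ?_
          rw [norm_mul]
          exact mul_le_mul (TT_norm hb hg d) (hC N hN _ _) (norm_nonneg _) (Nat.cast_nonneg _)
      _ = _ := by simp
  calc π / b * _ ≤ π / b * (b * (b * (C * N / Real.log N ^ A))) :=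
        mul_le_mul_of_nonneg_left h2 (by positivity)
    _ = _ := by
        have : (b : ℝ) ≠ 0 := by positivity
        field_simp

end

end Pool.Agent.Run7.h776.MS
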