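import Pool.Agent.Run7.h776.MS.Tail

/-! # Primitives of the step functions -/

set_option autoImplicit false

namespace Pool.Agent.Run7.h776.MS

open Finset Filter Topology
open Pool.Agent.H807R2.Dav (ee norm_ee ee_add ee_zero ee_int ee_add_int)
open scoped Real

lemma Pr_cont : Continuous Pr := by
  have h1 : Pr = fun t => 1 / 12 - 1 / (2 * π ^ 2) *
      ∑' k : ℕ, 1 / (k : ℝ) ^ 2 * Real.cos (2 * π * (k * t)) := by
    funext t
    rw [(Pr_hasSum t).tsum_eq]
    have : π ≠ 0 := Real.pi_ne_zero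
    field_simp
    ring
  rw [h1]
  refine continuous_const.sub (continuous_const.mul ?_)
  refine continuous_tsum (u := fun k : ℕ => 1 / (k : ℝ) ^ 2) (fun k => by fun_prop)
    (Real.summable_one_div_nat_pow.2 (by norm_num)) (fun k t => ?_)
  rw [norm_mul, Real.norm_eq_abs, Real.norm_eq_abs, abs_of_nonneg (by positivity)]
  exact mul_le_of_le_one_right (by positivity) (Real.abs_cos_le_one _)

lemma Pr_deriv (t : ℝ) : HasDerivWithinAt Pr (psi t) (Set.Ici t) t := by
  set m : ℤ := ⌊t⌋ with hm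
  have h1 : HasDerivAt (fun x : ℝ => ((x - m) - (x - m) ^ 2) / 2) (psi t) t := by
    have h2 : HasDerivAt (fun x : ℝ => x - (m : ℝ)) 1 t := (hasDerivAt_id t).sub_const _
    have h3 := (h2.sub (h2.pow 2)).div_const 2
    refine h3.congr_deriv ?_
    unfold psi
    have := Int.fract_add_floor t
    rw [← hm] at this
    simp
    linarith
  refine h1.hasDerivWithinAt.congr_of_eventuallyEq ?_ ?_
  · have h4 : ∀ᶠ x : ℝ in 𝓝[Set.Ici t] t, x < (m : ℝ) + 1 := by
      apply mem_nhdsWithin_of_mem_nhds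
      exact Iio_mem_nhds (Int.lt_floor_add_one t)
    filter_upwards [h4, self_mem_nhdsWithin] with x hx hx2
    have hx3 : t ≤ x := hx2
    have h5 : ⌊x⌋ = m := by
      rw [Int.floor_eq_iff]
      exact ⟨(Int.floor_le t).trans hx3, hx⟩
    unfold Pr
    have h6 : Int.fract x = x - m := by
      rw [← h5]
      rfl
    rw [h6]
  · unfold Pr
    have h6 : Int.fract t = t - m := rfl
    rw [h6]

/-- primitive of `EE` -/
noncomputable def WW (b : ℕ) (g : ℕ → ℂ) (t : ℝ) : ℂ :=
  (π / b : ℝ) * ∑ d ∈ range b, TT b g d * ((Pr (t + d / b) : ℝ) : ℂ)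

lemma WW_cont (b : ℕ) (g : ℕ → ℂ) : Continuous (WW b g) := by
  unfold WW
  refine continuous_const.mul (continuous_finsetSum _ fun d _ => continuous_const.mul ?_)
  exact Complex.continuous_ofReal.comp (Pr_cont.comp (by fun_prop))

lemma WW_deriv (b : ℕ) (g : ℕ → ℂ) (j : ℕ) (t : ℝ) :
    HasDerivWithinAt (fun x : ℝ => WW b g (j * x)) (j * EE b g (j * t)) (Set.Ici t) t := by
  have h1 : ∀ c : ℝ, HasDerivWithinAt (fun x : ℝ => ((Pr (j * x + c) : ℝ) : ℂ))
      (((psi (j * t + c) * j : ℝ)) : ℂ) (Set.Ici t) t := by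
    intro c
    have h2 : HasDerivWithinAt (fun x : ℝ => (j : ℝ) * x + c) (j : ℝ) (Set.Ici t) t := by
      have := ((hasDerivWithinAt_id t (Set.Ici t)).const_mul (j : ℝ)).add_const c
      simpa using this
    have h3 : Set.MapsTo (fun x : ℝ => (j : ℝ) * x + c) (Set.Ici t) (Set.Ici (j * t + c)) := by
      intro x hx
      have hx' : t ≤ x := hx
      have : (j : ℝ) * t ≤ j * x := mul_le_mul_of_nonneg_left hx' (Nat.cast_nonneg _)
      show (j : ℝ) * t + c ≤ j * x + c
      linarith
    have h4 := HasDerivWithinAt.comp t (Pr_deriv (j * t + c)) h2 h3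
    exact h4.ofReal_comp
  have h5 : HasDerivWithinAt (fun x : ℝ => WW b g (j * x))
      ((π / b : ℝ) * ∑ d ∈ range b, TT b g d * (((psi (j * t + d / b) * j : ℝ)) : ℂ))
      (Set.Ici t) t := by
    unfold WW
    apply HasDerivWithinAt.const_mul
    apply HasDerivWithinAt.fun_sum
    intro d _
    exact (h1 (d / b)).const_mul _
  refine h5.congr_deriv ?_
  unfold EE
  rw [mul_left_comm]
  congr 1
  rw [mul_sum]
  refine sum_congr rfl fun d _ => ?_
  push_cast
  ring

end Pool.Agent.Run7.h776.MS
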