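import Mathlib
import Pool.Agent.H807R2.Dav1

/-! # The sawtooth function, its primitive, and weighted sums along arithmetic progressions -/

set_option autoImplicit false

namespace Pool.Agent.Run7.h776.MS

open Finset
open Pool.Agent.H807R2.Dav (ee norm_ee ee_add ee_zero ee_int ee_add_int)
open scoped Real

/-- the sawtooth function -/
noncomputable def psi (t : ℝ) : ℝ := 1 / 2 - Int.fract t

/-- its primitive -/
noncomputable def Pr (t : ℝ) : ℝ := (Int.fract t - Int.fract t ^ 2) / 2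

lemma psi_abs (t : ℝ) : |psi t| ≤ 1 / 2 := by
  unfold psi
  have h1 := Int.fract_nonneg t
  have h2 := (Int.fract_lt_one t).le
  rw [abs_le]
  constructor <;> linarith

lemma psi_add_int (t : ℝ) (m : ℤ) : psi (t + m) = psi t := by
  unfold psi
  rw [Int.fract_add_intCast]

lemma Pr_add_int (t : ℝ) (m : ℤ) : Pr (t + m) = Pr t := by
  unfold Pr
  rw [Int.fract_add_intCast]

lemma ee_fract (t : ℝ) : ee t = ee (Int.fract t) := by
  conv_lhs => rw [← Int.fract_add_floor t]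
  rw [ee_add_int]

lemma cos_ee (t : ℝ) : ((Real.cos (2 * π * t) : ℝ) : ℂ) = (ee t + ee (-t)) / 2 := by
  unfold ee
  rw [Complex.ofReal_cos, Complex.cos]
  congr 2
  · congr 1; push_cast; ring
  · congr 1; push_cast; ring

lemma bern2 (x : ℝ) :
    ((Polynomial.bernoulli 2).map (algebraMap ℚ ℝ)).eval x = x ^ 2 - x + 1 / 6 := by
  simp [Polynomial.bernoulli, Finset.sum_range_succ, bernoulli_one, bernoulli_two]
  ring

lemma Pr_hasSum (t : ℝ) :
    HasSum (fun k : ℕ => 1 / (k : ℝ) ^ 2 * Real.cos (2 * π * (k * t))) (2 * π ^ 2 * (1 / 12 - Pr t)) := by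
  have h0 : Int.fract t ∈ Set.Icc (0 : ℝ) 1 := ⟨Int.fract_nonneg t, (Int.fract_lt_one t).le⟩
  have h := hasSum_one_div_nat_pow_mul_cos (k := 1) one_ne_zero h0
  convert h using 1
  · funext k
    have : Real.cos (2 * π * (k * t)) = Real.cos (2 * π * k * Int.fract t) := by
      have h3 : 2 * π * (k * t) = 2 * π * k * Int.fract t + ((k * ⌊t⌋ : ℤ) : ℝ) * (2 * π) := by
        have := Int.fract_add_floor t
        push_cast
        linear_combination (-(2 * π * k)) * this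
      rw [h3, Real.cos_add_int_mul_two_pi]
    rw [this]
  · rw [show 2 * 1 = 2 by norm_num, bern2]
    unfold Pr
    simp
    ring

lemma Pr_sum_bound (s : Finset ℕ) (a : ℕ → ℂ) {E : ℝ}
    (hE : ∀ β : ℝ, ‖∑ n ∈ s, a n * ee (n * β)‖ ≤ E) (y β : ℝ) :
    ‖∑ n ∈ s, a n * ((Pr (n * y + β) : ℝ) : ℂ)‖ ≤ E / 6 := by
  have hE0 : 0 ≤ E := (norm_nonneg _).trans (hE 0)
  -- the series
  have h1 : HasSum (fun k : ℕ => ∑ n ∈ s, a n *
      ((1 / (k : ℝ) ^ 2 * Real.cos (2 * π * (k * (n * y + β))) : ℝ) : ℂ))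
      (∑ n ∈ s, a n * ((2 * π ^ 2 * (1 / 12 - Pr (n * y + β)) : ℝ) : ℂ)) := by
    apply hasSum_sum
    intro n _
    apply HasSum.mul_left
    exact Complex.hasSum_ofReal.2 (Pr_hasSum _)
  have h2 : ∀ k : ℕ, ‖∑ n ∈ s, a n *
      ((1 / (k : ℝ) ^ 2 * Real.cos (2 * π * (k * (n * y + β))) : ℝ) : ℂ)‖ ≤ 1 / (k : ℝ) ^ 2 * E := by
    intro k
    have e1 : ∑ n ∈ s, a n * ((1 / (k : ℝ) ^ 2 * Real.cos (2 * π * (k * (n * y + β))) : ℝ) : ℂ) =
        ((1 / (k : ℝ) ^ 2 : ℝ) : ℂ) * ((ee (k * β) / 2) * ∑ n ∈ s, a n * ee (n * (k * y)) +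
          (ee (-(k * β)) / 2) * ∑ n ∈ s, a n * ee (n * (-(k * y)))) := by
      rw [mul_sum, mul_sum, ← sum_add_distrib, mul_sum]
      refine sum_congr rfl fun n _ => ?_
      rw [Complex.ofReal_mul, cos_ee]
      have e2 : ee (k * (n * y + β)) = ee (k * β) * ee (n * (k * y)) := by
        rw [← ee_add]; congr 1; ring
      have e3 : ee (-(k * (n * y + β))) = ee (-(k * β)) * ee (n * (-(k * y))) := by
        rw [← ee_add]; congr 1; ring
      rw [e2, e3]
      ring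
    rw [e1, norm_mul, Complex.norm_real, Real.norm_eq_abs, abs_of_nonneg (by positivity)]
    apply mul_le_mul_of_nonneg_left _ (by positivity)
    refine (norm_add_le _ _).trans ?_
    rw [norm_mul, norm_mul, norm_div, norm_div, norm_ee, norm_ee]
    have := hE (k * y)
    have := hE (-(k * y))
    simp only [Complex.norm_ofNat]
    linarith
  have h3 : HasSum (fun k : ℕ => 1 / (k : ℝ) ^ 2 * E) (π ^ 2 / 6 * E) := hasSum_zeta_two.mul_right E
  have h4 : ‖∑ n ∈ s, a n * ((2 * π ^ 2 * (1 / 12 - Pr (n * y + β)) : ℝ) : ℂ)‖ ≤ π ^ 2 / 6 * E := by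
    rw [← h1.tsum_eq]
    exact tsum_of_norm_bounded h3 h2
  have h5 : ∑ n ∈ s, a n * ((Pr (n * y + β) : ℝ) : ℂ) = (1 / 12) * ∑ n ∈ s, a n * ee (n * 0) -
      (1 / (2 * (π : ℂ) ^ 2)) * ∑ n ∈ s, a n * ((2 * π ^ 2 * (1 / 12 - Pr (n * y + β)) : ℝ) : ℂ) := by
    rw [mul_sum, mul_sum, ← sum_sub_distrib]
    refine sum_congr rfl fun n _ => ?_
    rw [mul_zero, ee_zero]
    have hpi : (π : ℂ) ≠ 0 := by exact_mod_cast Real.pi_ne_zero
    push_cast
    field_simp
    ring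
  rw [h5]
  refine (norm_sub_le _ _).trans ?_
  have h6 : ‖(1 / 12 : ℂ) * ∑ n ∈ s, a n * ee (n * 0)‖ ≤ 1 / 12 * E := by
    rw [norm_mul]
    apply mul_le_mul _ (hE 0) (norm_nonneg _) (by norm_num)
    norm_num
  have h7 : ‖(1 / (2 * (π : ℂ) ^ 2)) * ∑ n ∈ s, a n *
      ((2 * π ^ 2 * (1 / 12 - Pr (n * y + β)) : ℝ) : ℂ)‖ ≤ 1 / (2 * π ^ 2) * (π ^ 2 / 6 * E) := by
    rw [norm_mul]
    apply mul_le_mul _ h4 (norm_nonneg _) (by positivity)
    rw [norm_div, norm_mul, norm_pow, Complex.norm_real, Real.norm_eq_abs, sq_abs]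
    norm_num
  have h8 : 1 / (2 * π ^ 2) * (π ^ 2 / 6 * E) = 1 / 12 * E := by
    field_simp
    ring
  rw [h8] at h7
  linarith

lemma psi_smooth (t δ : ℝ) (h0 : 0 < δ) (h1 : δ ≤ 1) (ht : Int.fract t < 1 - δ) :
    |psi t - (Pr (t + δ) - Pr t) / δ| ≤ δ / 2 := by
  have hf0 := Int.fract_nonneg t
  have e1 : Int.fract (t + δ) = Int.fract t + δ := by
    rw [Int.fract_eq_iff]
    refine ⟨by linarith, by linarith, ⌊t⌋, ?_⟩
    have := Int.fract_add_floor t
    linarith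
  have e2 : psi t - (Pr (t + δ) - Pr t) / δ = δ / 2 := by
    unfold psi Pr
    rw [e1]
    field_simp
    ring
  rw [e2, abs_of_pos (by linarith)]

lemma psi_smooth' (t δ : ℝ) (h0 : 0 < δ) (h1 : δ ≤ 1) :
    |psi t - (Pr (t + δ) - Pr t) / δ| ≤ 1 := by
  have hf0 := Int.fract_nonneg t
  have hf1 := Int.fract_lt_one t
  rcases lt_or_ge (Int.fract t) (1 - δ) with ht | ht
  · exact (psi_smooth t δ h0 h1 ht).trans (by linarith)
  have e1 : Int.fract (t + δ) = Int.fract t + δ - 1 := by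
    rw [Int.fract_eq_iff]
    refine ⟨by linarith, by linarith, ⌊t⌋ + 1, ?_⟩
    have := Int.fract_add_floor t
    push_cast
    linarith
  have h2 : |(Pr (t + δ) - Pr t) / δ| ≤ 1 / 2 := by
    unfold Pr
    rw [e1, abs_div, abs_of_pos h0, div_le_iff₀ h0, abs_le]
    set x := Int.fract t
    constructor <;> nlinarith
  have h3 := psi_abs t
  calc |psi t - (Pr (t + δ) - Pr t) / δ| ≤ |psi t| + |(Pr (t + δ) - Pr t) / δ| := abs_sub _ _
    _ ≤ 1 := by linarith

open Classical in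
lemma psi_sum_bound (s : Finset ℕ) (a : ℕ → ℂ) {E : ℝ} (ha : ∀ n, ‖a n‖ ≤ 1)
    (hE : ∀ β : ℝ, ‖∑ n ∈ s, a n * ee (n * β)‖ ≤ E) (y β δ : ℝ) (h0 : 0 < δ) (h1 : δ ≤ 1) :
    ‖∑ n ∈ s, a n * ((psi (n * y + β) : ℝ) : ℂ)‖ ≤ E / (3 * δ) + δ / 2 * s.card +
      (s.filter (fun n : ℕ => 1 - δ ≤ Int.fract (n * y + β))).card := by
  have e1 : ∑ n ∈ s, a n * ((psi (n * y + β) : ℝ) : ℂ) =
      (1 / (δ : ℂ)) * (∑ n ∈ s, a n * ((Pr (n * y + (β + δ)) : ℝ) : ℂ) -
        ∑ n ∈ s, a n * ((Pr (n * y + β) : ℝ) : ℂ)) +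
      ∑ n ∈ s, a n * ((psi (n * y + β) - (Pr (n * y + β + δ) - Pr (n * y + β)) / δ : ℝ) : ℂ) := by
    rw [← sum_sub_distrib, mul_sum, ← sum_add_distrib]
    refine sum_congr rfl fun n _ => ?_
    have : (δ : ℂ) ≠ 0 := by exact_mod_cast h0.ne'
    rw [← add_assoc]
    push_cast
    field_simp
    ring
  rw [e1]
  refine (norm_add_le _ _).trans ?_
  have h2 : ‖(1 / (δ : ℂ)) * (∑ n ∈ s, a n * ((Pr (n * y + (β + δ)) : ℝ) : ℂ) -
        ∑ n ∈ s, a n * ((Pr (n * y + β) : ℝ) : ℂ))‖ ≤ E / (3 * δ) := by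
    rw [norm_mul, norm_div, norm_one, Complex.norm_real, Real.norm_eq_abs, abs_of_pos h0]
    have h3 := Pr_sum_bound s a hE y (β + δ)
    have h4 := Pr_sum_bound s a hE y β
    calc 1 / δ * _ ≤ 1 / δ * (E / 6 + E / 6) := by
          apply mul_le_mul_of_nonneg_left _ (by positivity)
          exact (norm_sub_le _ _).trans (add_le_add h3 h4)
      _ = _ := by field_simp; ring
  have h3 : ‖∑ n ∈ s, a n * ((psi (n * y + β) - (Pr (n * y + β + δ) - Pr (n * y + β)) / δ : ℝ) : ℂ)‖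
      ≤ δ / 2 * s.card + (s.filter (fun n : ℕ => 1 - δ ≤ Int.fract (n * y + β))).card := by
    refine (norm_sum_le _ _).trans ?_
    calc ∑ n ∈ s, ‖a n * ((psi (n * y + β) - (Pr (n * y + β + δ) - Pr (n * y + β)) / δ : ℝ) : ℂ)‖
        ≤ ∑ n ∈ s, (δ / 2 + if 1 - δ ≤ Int.fract (n * y + β) then (1 : ℝ) else 0) := by
          refine sum_le_sum fun n _ => ?_
          rw [norm_mul, Complex.norm_real, Real.norm_eq_abs]
          have h5 : ‖a n‖ * |psi (n * y + β) - (Pr (n * y + β + δ) - Pr (n * y + β)) / δ| ≤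
              |psi (n * y + β) - (Pr (n * y + β + δ) - Pr (n * y + β)) / δ| :=
            mul_le_of_le_one_left (abs_nonneg _) (ha n)
          refine h5.trans ?_
          split_ifs with hc
          · have := psi_smooth' (n * y + β) δ h0 h1
            linarith
          · have := psi_smooth (n * y + β) δ h0 h1 (not_le.1 hc)
            linarith
      _ = _ := by
          rw [sum_add_distrib, sum_const, nsmul_eq_mul, sum_boole]
          ring
  linarith

end Pool.Agent.Run7.h776.MS
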