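import Pool.Agent.Run7.h776.MS.Approx

/-! # The functions `EE` are step functions; the finite inequality -/

set_option autoImplicit false

namespace Pool.Agent.Run7.h776.MS

open Finset
open Pool.Agent.H807R2.Dav (ee norm_ee ee_add ee_zero ee_int ee_add_int)
open scoped Real

/-- the first digit of the fractional part in base `b` -/
noncomputable def dig (b : ℕ) (t : ℝ) : ℕ := ⌊(b : ℝ) * Int.fract t⌋₊

lemma dig_lt {b : ℕ} (hb : 0 < b) (t : ℝ) : dig b t < b := by
  unfold dig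
  have hbr : (0 : ℝ) < b := by exact_mod_cast hb
  rw [Nat.floor_lt (mul_nonneg hbr.le (Int.fract_nonneg _))]
  calc (b : ℝ) * Int.fract t < b * 1 := mul_lt_mul_of_pos_left (Int.fract_lt_one t) hbr
    _ = b := mul_one _

lemma dig_eq_iff {b : ℕ} (hb : 0 < b) (t : ℝ) (d : ℕ) :
    dig b t = d ↔ (d : ℝ) / b ≤ Int.fract t ∧ Int.fract t < ((d : ℝ) + 1) / b := by
  unfold dig
  have hbr : (0 : ℝ) < b := by exact_mod_cast hb
  rw [Nat.floor_eq_iff (mul_nonneg hbr.le (Int.fract_nonneg _)), div_le_iff₀ hbr, lt_div_iff₀ hbr,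
    mul_comm]

lemma fract_step {b : ℕ} (hb : 0 < b) (t : ℝ) (d : ℕ) :
    Int.fract (t + d / b) = Int.fract ((dig b t : ℝ) / b + d / b) +
      (Int.fract t - (dig b t : ℝ) / b) := by
  have hbr : (0 : ℝ) < b := by exact_mod_cast hb
  obtain ⟨h1, h2⟩ := (dig_eq_iff hb t (dig b t)).1 rfl
  set q := dig b t with hq
  set m : ℕ := (q + d) / b with hm
  set r : ℕ := (q + d) % b with hr
  have h3 : q + d = b * m + r := (Nat.div_add_mod _ _).symm
  have h3' : (q : ℝ) + d = b * m + r := by exact_mod_cast h3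
  have hrb : r < b := Nat.mod_lt _ hb
  have hrb' : (r : ℝ) + 1 ≤ b := by exact_mod_cast hrb
  have h4 : (q : ℝ) / b + d / b = (r : ℝ) / b + ((m : ℕ) : ℤ) := by
    rw [Int.cast_natCast, ← add_div, h3']
    field_simp
    ring
  have hr1 : (r : ℝ) / b + 1 / b ≤ 1 := by
    rw [← add_div, div_le_one hbr]
    exact hrb'
  have hr0 : 0 ≤ (r : ℝ) / b := by positivity
  have hb1 : 0 < 1 / (b : ℝ) := by positivity
  have h5 : Int.fract ((q : ℝ) / b + d / b) = (r : ℝ) / b := by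
    rw [h4, Int.fract_add_intCast, Int.fract_eq_self]
    exact ⟨hr0, by linarith⟩
  rw [h5]
  have h2' : Int.fract t < (q : ℝ) / b + 1 / b := by rw [← add_div]; exact h2
  have h6 : t + d / b = ((r : ℝ) / b + (Int.fract t - (q : ℝ) / b)) + ((⌊t⌋ + m : ℤ) : ℝ) := by
    have h7 := Int.fract_add_floor t
    have h8 : (d : ℝ) / b = (r : ℝ) / b + m - (q : ℝ) / b := by
      rw [Int.cast_natCast] at h4
      linarith
    push_cast
    rw [h8]
    linarith
  rw [h6, Int.fract_add_intCast, Int.fract_eq_self]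
  constructor
  · linarith
  · linarith

section

variable {b : ℕ} {g : ℕ → ℂ}

lemma EE_step (hb : 0 < b) (hg : PG b g) (t : ℝ) : EE b g t = EE b g ((dig b t : ℝ) / b) := by
  unfold EE
  congr 1
  have h1 : ∀ d ∈ range b, TT b g d * ((psi (t + d / b) : ℝ) : ℂ) =
      TT b g d * ((psi ((dig b t : ℝ) / b + d / b) : ℝ) : ℂ) -
        TT b g d * ((Int.fract t - (dig b t : ℝ) / b : ℝ) : ℂ) := by
    intro d _
    unfold psi
    rw [fract_step hb t d]
    push_cast
    ring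
  rw [sum_congr rfl h1, sum_sub_distrib, ← sum_mul, sum_TT hb hg, zero_mul, sub_zero]

lemma sum_shift (f : ℕ → ℝ) (b : ℕ) (hf : ∀ n, f (n + b) = f n) (d : ℕ) :
    ∑ q ∈ range b, f (q + d) = ∑ q ∈ range b, f q := by
  induction d with
  | zero => simp
  | succ d ih =>
    have h1 : ∑ q ∈ range (b + 1), f (q + d) = ∑ q ∈ range b, f (q + d) + f (b + d) :=
      sum_range_succ _ _
    have h2 : ∑ q ∈ range (b + 1), f (q + d) = ∑ q ∈ range b, f (q + 1 + d) + f (0 + d) :=
      sum_range_succ' _ _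
    have h3 : f (b + d) = f (0 + d) := by
      rw [zero_add, add_comm, hf]
    have h4 : ∑ q ∈ range b, f (q + (d + 1)) = ∑ q ∈ range b, f (q + 1 + d) := by
      refine sum_congr rfl fun q _ => ?_
      congr 1
      ring
    rw [h4, ← ih]
    linarith

lemma EE_sum (hb : 0 < b) (hg : PG b g) : ∑ q ∈ range b, EE b g ((q : ℝ) / b) = 0 := by
  have hbr : (b : ℝ) ≠ 0 := by exact_mod_cast hb.ne'
  unfold EE
  rw [← mul_sum, sum_comm]
  have h1 : ∀ d ∈ range b, ∑ q ∈ range b, TT b g d * ((psi ((q : ℝ) / b + d / b) : ℝ) : ℂ) =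
      TT b g d * ((∑ q ∈ range b, psi ((q : ℝ) / b) : ℝ) : ℂ) := by
    intro d _
    rw [← mul_sum]
    congr 1
    rw [← Complex.ofReal_sum]
    congr 1
    have h2 := sum_shift (fun q => psi ((q : ℝ) / b)) b (fun n => by
      have : ((n + b : ℕ) : ℝ) / b = (n : ℝ) / b + ((1 : ℤ) : ℝ) := by
        push_cast
        field_simp
      show psi (((n + b : ℕ) : ℝ) / b) = psi ((n : ℝ) / b)
      rw [this, psi_add_int]) d
    rw [← h2]
    refine sum_congr rfl fun q _ => ?_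
    congr 1
    push_cast
    ring
  rw [sum_congr rfl h1, ← sum_mul, sum_TT hb hg, zero_mul, mul_zero]

lemma EE_norm (hb : 0 < b) (hg : PG b g) (t : ℝ) : ‖EE b g t‖ ≤ 2 * b := by
  have hbr : (0 : ℝ) < b := by exact_mod_cast hb
  unfold EE
  rw [norm_mul, Complex.norm_real, Real.norm_eq_abs, abs_of_nonneg (by positivity)]
  have h1 : ‖∑ d ∈ range b, TT b g d * ((psi (t + d / b) : ℝ) : ℂ)‖ ≤ b * (b * (1 / 2)) := by
    refine (norm_sum_le _ _).trans ?_
    calc _ ≤ ∑ d ∈ range b, (b : ℝ) * (1 / 2) := by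
          refine sum_le_sum fun d _ => ?_
          rw [norm_mul, Complex.norm_real, Real.norm_eq_abs]
          exact mul_le_mul (TT_norm hb hg d) (psi_abs _) (abs_nonneg _) (Nat.cast_nonneg _)
      _ = _ := by simp
  calc π / b * _ ≤ π / b * (b * (b * (1 / 2))) := mul_le_mul_of_nonneg_left h1 (by positivity)
    _ = π / 2 * b := by field_simp
    _ ≤ 2 * b := by
        have := Real.pi_lt_four
        nlinarith

/-- how often the digit `d` occurs -/
noncomputable def cnt (b N : ℕ) (x : ℕ → ℝ) (d : ℕ) : ℕ :=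
  ((range N).filter (fun n => dig b (x n) = d)).card

/-- the total deviation of the first digits -/
noncomputable def dev (b N : ℕ) (x : ℕ → ℝ) : ℝ :=
  ∑ d ∈ range b, |(cnt b N x d : ℝ) - N / b|

lemma dev_nonneg (b N : ℕ) (x : ℕ → ℝ) : 0 ≤ dev b N x := sum_nonneg fun _ _ => abs_nonneg _

theorem sum_EE (hb : 0 < b) (hg : PG b g) (N : ℕ) (x : ℕ → ℝ) :
    ‖∑ n ∈ range N, EE b g (x n)‖ ≤ 2 * b * dev b N x := by
  have h1 : ∑ n ∈ range N, EE b g (x n) =
      ∑ d ∈ range b, (cnt b N x d : ℂ) * EE b g ((d : ℝ) / b) := by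
    rw [← sum_fiberwise_of_maps_to (s := range N) (t := range b) (g := fun n => dig b (x n))
      (fun n _ => mem_range.2 (dig_lt hb _))]
    refine sum_congr rfl fun d _ => ?_
    unfold cnt
    rw [← nsmul_eq_mul, ← sum_const]
    refine sum_congr rfl fun n hn => ?_
    rw [mem_filter] at hn
    rw [EE_step hb hg, hn.2]
  have h2 : ∑ n ∈ range N, EE b g (x n) =
      ∑ d ∈ range b, (((cnt b N x d : ℝ) - N / b : ℝ) : ℂ) * EE b g ((d : ℝ) / b) := by
    rw [h1]
    have h3 : ∑ d ∈ range b, ((N : ℂ) / b) * EE b g ((d : ℝ) / b) = 0 := by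
      rw [← mul_sum, EE_sum hb hg, mul_zero]
    rw [← sub_zero (∑ d ∈ range b, (cnt b N x d : ℂ) * EE b g ((d : ℝ) / b)), ← h3,
      ← sum_sub_distrib]
    refine sum_congr rfl fun d _ => ?_
    push_cast
    ring
  rw [h2]
  refine (norm_sum_le _ _).trans ?_
  unfold dev
  rw [mul_sum]
  refine sum_le_sum fun d _ => ?_
  rw [norm_mul, Complex.norm_real, Real.norm_eq_abs, mul_comm]
  exact mul_le_mul_of_nonneg_right (EE_norm hb hg _) (abs_nonneg _)

theorem sum_DD (hb : 0 < b) (hg : PG b g) (M N : ℕ) (x : ℕ → ℝ) :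
    ‖∑ n ∈ range N, DD b g M (x n)‖ ≤
      2 * b * ∑ j ∈ Icc 1 M, 1 / (j : ℝ) * dev b N (fun n => j * x n) := by
  unfold DD
  rw [sum_comm, mul_sum]
  refine (norm_sum_le _ _).trans (sum_le_sum fun j hj => ?_)
  rw [← mul_sum, norm_mul]
  rw [mem_Icc] at hj
  have hj0 : (0 : ℝ) < j := by exact_mod_cast hj.1
  have h1 : ‖mu j * g j / j‖ ≤ 1 / j := by
    rw [norm_div, Complex.norm_natCast, norm_mul]
    exact div_le_div_of_nonneg_right (mul_le_one₀ (mu_norm j) (norm_nonneg _) (hg.norm j)) hj0.le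
  calc _ ≤ 1 / (j : ℝ) * (2 * b * dev b N (fun n => j * x n)) :=
        mul_le_mul h1 (sum_EE hb hg N _) (norm_nonneg _) (by positivity)
    _ = _ := by ring

end

/-- Dirichlet characters -/
lemma PG_char {b : ℕ} (hb : 2 ≤ b) (χ : DirichletCharacter ℂ b) :
    PG b (fun n => χ (n : ZMod b)) := by
  have : NeZero b := ⟨by omega⟩
  have : Fact (1 < b) := ⟨by omega⟩
  refine ⟨fun n => ?_, fun m n => ?_, ?_, ?_, fun n => χ.norm_le_one _⟩
  · simp only [ZMod.natCast_mod]
  · simp only [Nat.cast_mul, map_mul]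
  · simp only [Nat.cast_one, map_one]
  · simp only [Nat.cast_zero]
    apply MulChar.map_nonunit
    exact not_isUnit_zero

lemma cast_pred {b : ℕ} (hb : 2 ≤ b) : (((b - 1 : ℕ) : ZMod b)) = -1 := by
  rw [Nat.cast_sub (by omega)]
  simp

lemma odd_char {b : ℕ} (hb : 3 ≤ b) : ∃ χ : DirichletCharacter ℂ b, χ (-1) = -1 := by
  have : NeZero b := ⟨by omega⟩
  have h1 : (-1 : (ZMod b)ˣ) ≠ 1 := by
    intro h
    have h2 : ((-1 : (ZMod b)ˣ) : ZMod b) = ((1 : (ZMod b)ˣ) : ZMod b) := by rw [h]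
    rw [Units.val_neg, Units.val_one] at h2
    have h3 : ((2 : ℕ) : ZMod b) = 0 := by
      have h4 : (1 : ZMod b) + 1 = 0 := by
        nth_rewrite 2 [← h2]
        ring
      push_cast
      rw [← h4]
      norm_num
    rw [ZMod.natCast_eq_zero_iff] at h3
    have := Nat.le_of_dvd (by norm_num) h3
    omega
  have h1' : ((-1 : ZMod b)) ≠ 1 := by
    intro h
    apply h1
    ext
    rw [Units.val_neg, Units.val_one, h]
  obtain ⟨χ, hχ⟩ := MulChar.exists_apply_ne_one_of_hasEnoughRootsOfUnity (M := ZMod b) (R := ℂ) h1'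
  refine ⟨χ, ?_⟩
  have h5 : χ (-1) * χ (-1) = 1 := by
    rw [← map_mul]
    simp
  rcases mul_self_eq_one_iff.1 h5 with h6 | h6
  · exact absurd h6 hχ
  · exact h6

/-- **The finite inequality.** -/
theorem main_ineq {b : ℕ} (hb : 3 ≤ b) (A : ℕ) : ∃ C : ℝ, 0 < C ∧ ∀ M : ℕ, 2 ≤ M → ∀ N : ℕ,
    ∀ x : ℕ → ℝ, ‖∑ n ∈ range N, ee (x n)‖ ≤
      C * N / Real.log M ^ A + 4 * b * ∑ j ∈ Icc 1 M, 1 / (j : ℝ) * dev b N (fun n => j * x n) := by
  have hb0 : 0 < b := by omega
  obtain ⟨χ, hχ⟩ := odd_char hb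
  set g1 : ℕ → ℂ := fun n => χ (n : ZMod b) with hg1
  set g2 : ℕ → ℂ := fun n => (1 : DirichletCharacter ℂ b) (n : ZMod b) with hg2
  have P1 : PG b g1 := PG_char (by omega) χ
  have P2 : PG b g2 := PG_char (by omega) 1
  have v1 : g1 (b - 1) = -1 := by
    rw [hg1]
    simp only
    rw [cast_pred (by omega), hχ]
  have v2 : g2 (b - 1) = 1 := by
    rw [hg2]
    simp only
    rw [cast_pred (by omega)]
    apply MulChar.one_apply
    exact isUnit_one.neg
  obtain ⟨C1, hC1, h1⟩ := approx hb0 P1 A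
  obtain ⟨C2, hC2, h2⟩ := approx hb0 P2 A
  refine ⟨C1 + C2, by positivity, fun M hM N x => ?_⟩
  have hL0 : 0 < Real.log M := Real.log_pos (by exact_mod_cast (by omega : 1 < M))
  have h3 : ∀ y : ℝ, ee y = Complex.I * (((ee y - g1 (b - 1) * ee (-y)) / (2 * Complex.I) -
      DD b g1 M y) + ((ee y - g2 (b - 1) * ee (-y)) / (2 * Complex.I) - DD b g2 M y)) +
      Complex.I * (DD b g1 M y + DD b g2 M y) := by
    intro y
    rw [v1, v2]
    have hI : Complex.I ≠ 0 := Complex.I_ne_zero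
    field_simp
    ring
  have h4 : ∑ n ∈ range N, ee (x n) =
      Complex.I * (∑ n ∈ range N, ((ee (x n) - g1 (b - 1) * ee (-(x n))) / (2 * Complex.I) -
      DD b g1 M (x n)) + ∑ n ∈ range N, ((ee (x n) - g2 (b - 1) * ee (-(x n))) / (2 * Complex.I) -
      DD b g2 M (x n))) +
      Complex.I * (∑ n ∈ range N, DD b g1 M (x n) + ∑ n ∈ range N, DD b g2 M (x n)) := by
    rw [← sum_add_distrib, ← sum_add_distrib, mul_sum, mul_sum, ← sum_add_distrib]
    exact sum_congr rfl fun n _ => h3 (x n)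
  have h5 : ‖∑ n ∈ range N, ((ee (x n) - g1 (b - 1) * ee (-(x n))) / (2 * Complex.I) -
      DD b g1 M (x n))‖ ≤ N * (C1 / Real.log M ^ A) := by
    refine (norm_sum_le _ _).trans ?_
    calc _ ≤ ∑ n ∈ range N, C1 / Real.log M ^ A := sum_le_sum fun n _ => h1 M hM (x n)
      _ = _ := by simp
  have h6 : ‖∑ n ∈ range N, ((ee (x n) - g2 (b - 1) * ee (-(x n))) / (2 * Complex.I) -
      DD b g2 M (x n))‖ ≤ N * (C2 / Real.log M ^ A) := by
    refine (norm_sum_le _ _).trans ?_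
    calc _ ≤ ∑ n ∈ range N, C2 / Real.log M ^ A := sum_le_sum fun n _ => h2 M hM (x n)
      _ = _ := by simp
  have h7 := sum_DD hb0 P1 M N x
  have h8 := sum_DD hb0 P2 M N x
  rw [h4]
  refine (norm_add_le _ _).trans ?_
  rw [norm_mul, norm_mul, Complex.norm_I, one_mul, one_mul]
  have h9 := norm_add_le (∑ n ∈ range N, ((ee (x n) - g1 (b - 1) * ee (-(x n))) / (2 * Complex.I) -
      DD b g1 M (x n))) (∑ n ∈ range N, ((ee (x n) - g2 (b - 1) * ee (-(x n))) / (2 * Complex.I) -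
      DD b g2 M (x n)))
  have h10 := norm_add_le (∑ n ∈ range N, DD b g1 M (x n)) (∑ n ∈ range N, DD b g2 M (x n))
  have h11 : (C1 + C2) * N / Real.log M ^ A =
      N * (C1 / Real.log M ^ A) + N * (C2 / Real.log M ^ A) := by ring
  rw [h11]
  linarith

end Pool.Agent.Run7.h776.MS
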