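import Pool.Agent.Run7.h776.MS.Mu

/-! # Tails of the twisted Davenport series -/

set_option autoImplicit false

namespace Pool.Agent.Run7.h776.MS

open Finset
open Pool.Agent.H807R2.Dav (ee norm_ee ee_add ee_zero ee_int ee_add_int)
open scoped Real

lemma log_step (n : ℕ) (hn : 3 ≤ n) :
    1 / ((n : ℝ) * Real.log n ^ 2) ≤ 1 / Real.log ((n - 1 : ℕ) : ℝ) - 1 / Real.log n := by
  have hnr : (3 : ℝ) ≤ n := by exact_mod_cast hn
  have hc : ((n - 1 : ℕ) : ℝ) = n - 1 := by
    rw [Nat.cast_sub (by omega)]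
    simp
  rw [hc]
  have h1 : 0 < Real.log (n - 1 : ℝ) := Real.log_pos (by linarith)
  have h2 : Real.log (n - 1 : ℝ) ≤ Real.log n := Real.log_le_log (by linarith) (by linarith)
  have h3 : 0 < Real.log n := by linarith
  have h4 : 1 / (n : ℝ) ≤ Real.log n - Real.log (n - 1 : ℝ) := by
    have h5 : Real.log (((n : ℝ) - 1) / n) ≤ ((n : ℝ) - 1) / n - 1 :=
      Real.log_le_sub_one_of_pos (div_pos (by linarith) (by linarith))
    rw [Real.log_div (by linarith) (by linarith)] at h5
    have h6 : ((n : ℝ) - 1) / n - 1 = -(1 / n) := by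
      field_simp
      ring
    rw [h6] at h5
    linarith
  have h5 : 1 / Real.log ((n : ℝ) - 1) - 1 / Real.log n =
      (Real.log n - Real.log (n - 1 : ℝ)) / (Real.log (n - 1 : ℝ) * Real.log n) := by
    rw [div_sub_div _ _ h1.ne' h3.ne']
    ring
  rw [h5]
  calc 1 / ((n : ℝ) * Real.log n ^ 2) = (1 / n) / (Real.log n * Real.log n) := by
        rw [div_div, sq]
    _ ≤ (Real.log n - Real.log (n - 1 : ℝ)) / (Real.log n * Real.log n) :=
        div_le_div_of_nonneg_right h4 (by positivity)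
    _ ≤ _ := by
        apply div_le_div_of_nonneg_left _ (by positivity)
        · exact mul_le_mul_of_nonneg_right h2 h3.le
        · have : (0 : ℝ) ≤ 1 / n := by positivity
          linarith

lemma sum_log (J K : ℕ) (hJ : 2 ≤ J) (hK : J ≤ K) :
    ∑ n ∈ Ioc J K, 1 / ((n : ℝ) * Real.log n ^ 2) ≤ 1 / Real.log J - 1 / Real.log K := by
  induction K, hK using Nat.le_induction with
  | base => simp
  | succ K hK ih =>
    rw [sum_Ioc_succ_top (by omega)]
    have := log_step (K + 1) (by omega)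
    rw [show K + 1 - 1 = K by omega] at this
    linarith

lemma abel_tail (s : ℕ → ℂ) (J K : ℕ) (hK : J ≤ K) :
    ∑ j ∈ Ioc J K, s j / j = (∑ j ∈ Icc 1 K, s j) / ((K + 1 : ℕ) : ℂ) -
      (∑ j ∈ Icc 1 J, s j) / ((J + 1 : ℕ) : ℂ) +
      ∑ n ∈ Ioc J K, (∑ j ∈ Icc 1 n, s j) / ((n : ℂ) * ((n + 1 : ℕ) : ℂ)) := by
  induction K, hK using Nat.le_induction with
  | base => simp
  | succ K hK ih =>
    rw [sum_Ioc_succ_top (by omega), sum_Ioc_succ_top (by omega), ih, sum_Icc_succ_top (by omega)]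
    have h1 : ((K + 1 : ℕ) : ℂ) ≠ 0 := by exact_mod_cast Nat.succ_ne_zero K
    have h2 : ((K + 1 + 1 : ℕ) : ℂ) ≠ 0 := by exact_mod_cast Nat.succ_ne_zero (K + 1)
    set X := ∑ j ∈ Icc 1 K, s j
    field_simp
    push_cast
    ring

theorem tail {b : ℕ} {g : ℕ → ℂ} (hb : 0 < b) (hg : PG b g) (A : ℕ) :
    ∃ C : ℝ, 0 < C ∧ ∀ J K : ℕ, 2 ≤ J → J ≤ K → ∀ t : ℝ,
      ‖∑ j ∈ Ioc J K, mu j * g j / j * EE b g (j * t)‖ ≤ C / Real.log J ^ A := by
  obtain ⟨C, hC0, hC⟩ := EE_mu hb hg (A + 2)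
  set l2 := Real.log 2 with hl2
  have hl20 : 0 < l2 := Real.log_pos (by norm_num)
  refine ⟨C * (2 / l2 ^ 2 + 1 / l2), by positivity, fun J K hJ hK t => ?_⟩
  have hJr : (2 : ℝ) ≤ J := by exact_mod_cast hJ
  have hLJ0 : 0 < Real.log J := Real.log_pos (by linarith)
  have hlJ : l2 ≤ Real.log J := Real.log_le_log (by norm_num) hJr
  set Y := Real.log J ^ A with hY
  have hY0 : 0 < Y := pow_pos hLJ0 _
  have e1 : ∑ j ∈ Ioc J K, mu j * g j / j * EE b g (j * t) =
      ∑ j ∈ Ioc J K, (mu j * g j * EE b g (j * t)) / j := sum_congr rfl fun j _ => by ring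
  rw [e1, abel_tail _ J K hK]
  have hpart : ∀ n : ℕ, J ≤ n → ‖∑ j ∈ Icc 1 n, mu j * g j * EE b g (j * t)‖ ≤
      C / Y * (n / Real.log n ^ 2) := by
    intro n hn
    have hnr : (J : ℝ) ≤ n := by exact_mod_cast hn
    have hln : Real.log J ≤ Real.log n := Real.log_le_log (by linarith) hnr
    have hln0 : 0 < Real.log n := by linarith
    refine (hC n (by omega) t).trans ?_
    have h1 : Y ≤ Real.log n ^ A := pow_le_pow_left₀ hLJ0.le hln _
    calc C * n / Real.log n ^ (A + 2) = C / Real.log n ^ A * (n / Real.log n ^ 2) := by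
          rw [pow_add]
          field_simp
      _ ≤ C / Y * (n / Real.log n ^ 2) := by
          apply mul_le_mul_of_nonneg_right _ (by positivity)
          exact div_le_div_of_nonneg_left hC0.le hY0 h1
  have hend : ∀ n : ℕ, J ≤ n → ‖(∑ j ∈ Icc 1 n, mu j * g j * EE b g (j * t)) / ((n + 1 : ℕ) : ℂ)‖ ≤
      C / Y * (1 / l2 ^ 2) := by
    intro n hn
    have hnr : (J : ℝ) ≤ n := by exact_mod_cast hn
    have hln : l2 ≤ Real.log n := hlJ.trans (Real.log_le_log (by linarith) hnr)
    rw [norm_div, Complex.norm_natCast, div_le_iff₀ (by positivity)]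
    refine (hpart n hn).trans ?_
    rw [mul_assoc]
    apply mul_le_mul_of_nonneg_left _ (by positivity)
    have h1 : l2 ^ 2 ≤ Real.log n ^ 2 := pow_le_pow_left₀ hl20.le hln _
    calc (n : ℝ) / Real.log n ^ 2 ≤ n / l2 ^ 2 :=
          div_le_div_of_nonneg_left (Nat.cast_nonneg _) (by positivity) h1
      _ ≤ 1 / l2 ^ 2 * ((n + 1 : ℕ) : ℝ) := by
          push_cast
          rw [div_eq_mul_one_div, mul_comm]
          apply mul_le_mul_of_nonneg_left (by linarith) (by positivity)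
  have hmid : ‖∑ n ∈ Ioc J K, (∑ j ∈ Icc 1 n, mu j * g j * EE b g (j * t)) /
      ((n : ℂ) * ((n + 1 : ℕ) : ℂ))‖ ≤ C / Y * (1 / l2) := by
    refine (norm_sum_le _ _).trans ?_
    calc _ ≤ ∑ n ∈ Ioc J K, C / Y * (1 / ((n : ℝ) * Real.log n ^ 2)) := by
          refine sum_le_sum fun n hn => ?_
          rw [mem_Ioc] at hn
          have hnr : (J : ℝ) ≤ n := by exact_mod_cast hn.1.le
          have hln0 : 0 < Real.log n := lt_of_lt_of_le hLJ0 (Real.log_le_log (by linarith) hnr)
          have hn0 : (0 : ℝ) < n := by linarith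
          rw [norm_div, norm_mul, Complex.norm_natCast, Complex.norm_natCast,
            div_le_iff₀ (by positivity)]
          refine (hpart n hn.1.le).trans ?_
          rw [mul_assoc]
          apply mul_le_mul_of_nonneg_left _ (by positivity)
          have : 1 / ((n : ℝ) * Real.log n ^ 2) * ((n : ℝ) * ((n + 1 : ℕ) : ℝ)) =
              (n + 1) / Real.log n ^ 2 := by
            push_cast
            field_simp
          rw [this]
          exact div_le_div_of_nonneg_right (by linarith) (by positivity)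
      _ = C / Y * ∑ n ∈ Ioc J K, 1 / ((n : ℝ) * Real.log n ^ 2) := by rw [mul_sum]
      _ ≤ C / Y * (1 / Real.log J - 1 / Real.log K) :=
          mul_le_mul_of_nonneg_left (sum_log J K hJ hK) (by positivity)
      _ ≤ C / Y * (1 / l2) := by
          apply mul_le_mul_of_nonneg_left _ (by positivity)
          have h1 : 1 / Real.log J ≤ 1 / l2 := one_div_le_one_div_of_le hl20 hlJ
          have h2 : 0 ≤ 1 / Real.log K := by
            have : (J : ℝ) ≤ K := by exact_mod_cast hK
            have := Real.log_nonneg (show (1 : ℝ) ≤ K by linarith)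
            positivity
          linarith
  refine (norm_add_le _ _).trans ?_
  have h1 := norm_sub_le ((∑ j ∈ Icc 1 K, mu j * g j * EE b g (j * t)) / ((K + 1 : ℕ) : ℂ))
    ((∑ j ∈ Icc 1 J, mu j * g j * EE b g (j * t)) / ((J + 1 : ℕ) : ℂ))
  have h2 := hend K hK
  have h3 := hend J le_rfl
  calc _ ≤ C / Y * (1 / l2 ^ 2) + C / Y * (1 / l2 ^ 2) + C / Y * (1 / l2) := by linarith
    _ = _ := by ring

end Pool.Agent.Run7.h776.MS
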